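import Pool.Agent.H936.G.Fin

/-!
# Sequences of subspaces of matrices and derivations of the ultrapower
-/

set_option autoImplicit false
set_option linter.unusedSectionVars false
set_option linter.unusedVariables false
set_option maxHeartbeats 400000

open Matrix Module Filter

namespace Pool.Agent.H936.W

open Pool.Agent.Helper880_LF (spS mem_spS comm_mem alg_mk der_alg)
open Pool.Agent.Helper880_LF.NB (gm gm_mul gm_add gm_sub gm_smul gm_zero gm_one gm_ev gm_eq gm_surj gm_neg gm_unit gm_apply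
  gm_transpose gm_kt kt kt_apply dm dm_mul dm_smul Lst mem_Lst)
open Pool.Agent.Helper880_R3 (Ix ib Tot gm_ib)
open Pool.Agent.Y118.UL (mk mk_eq mk_eq_zero mk_ne_zero mk_surj U)
open Pool.Agent.Y123.ST (fl um fl_um um_fl fl_add fl_smul fl_zero um_add um_smul um_zero)
open Pool.Agent.TH119.DR (DefOver)
open Pool.Agent.R917 (QQ)
open Pool.Agent.H936.SL
open Pool.Agent.H936.G (DD ld ld_apply)

/-! ### projections with entries in a subfield -/

theorem exists_rproj {K : Subfield ℂ} {α : Type} [Fintype α] [DecidableEq α] {W : Submodule ℂ (α → ℂ)}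
    (h : DefOver K W) : ∃ π : Matrix α α ℂ, (∀ i j, π i j ∈ K) ∧ (∀ v, π *ᵥ v ∈ W) ∧ ∀ v ∈ W, π *ᵥ v = v := by
  let WK : Submodule K (α → K) :=
    { carrier := {v | (fun a => (v a : ℂ)) ∈ W}
      zero_mem' := W.zero_mem
      add_mem' := fun {a b} ha hb => W.add_mem ha hb
      smul_mem' := fun c a ha => W.smul_mem (c : ℂ) ha }
  obtain ⟨p, hp⟩ := WK.subtype.exists_leftInverse_of_injective (LinearMap.ker_eq_bot.2 WK.injective_subtype)
  have hp' : ∀ v : WK, p v = v := fun v => congrArg (fun f : WK →ₗ[K] WK => f v) hp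
  let q : (α → K) →ₗ[K] (α → K) := WK.subtype ∘ₗ p
  let π : Matrix α α ℂ := Matrix.of fun i j => ((q (Pi.single j 1) i : K) : ℂ)
  have hq : ∀ v : α → K, (fun a => ((q v a : K) : ℂ)) ∈ W := fun v => (p v).2
  have hπ : ∀ v : α → K, π *ᵥ (fun a => (v a : ℂ)) = fun a => ((q v a : K) : ℂ) := by
    intro v
    funext a
    have h1 : q v = ∑ j, v j • q (Pi.single j 1) := by
      conv_lhs => rw [pi_eq_sum_univ v]
      rw [map_sum]
      refine Finset.sum_congr rfl fun j _ => ?_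
      rw [map_smul]
      congr 2
      funext b
      rw [Pi.single_apply]
      by_cases hb : b = j
      · rw [if_pos hb, if_pos hb.symm]
      · rw [if_neg hb, if_neg (Ne.symm hb)]
    rw [h1]
    simp only [mulVec, dotProduct, Finset.sum_apply, Pi.smul_apply, smul_eq_mul]
    push_cast
    refine Finset.sum_congr rfl fun j _ => ?_
    rw [mul_comm]
    rfl
  refine ⟨π, fun i j => (q (Pi.single j 1) i).2, fun v => ?_, fun v hv => ?_⟩
  · have h1 : π *ᵥ v = ∑ j, v j • fun a => ((q (Pi.single j 1) a : K) : ℂ) := by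
      funext a
      simp only [mulVec, dotProduct, Finset.sum_apply, Pi.smul_apply, smul_eq_mul]
      exact Finset.sum_congr rfl fun j _ => mul_comm _ _
    rw [h1]
    exact W.sum_mem fun j _ => W.smul_mem _ (hq _)
  · have h1 := h hv
    clear hv
    induction h1 using Submodule.span_induction with
    | mem v hv =>
      obtain ⟨h1, h2⟩ := hv
      have h3 := hπ fun a => ⟨v a, h2 a⟩
      refine h3.trans ?_
      have h4 : p (fun a => ⟨v a, h2 a⟩) = (⟨fun a => ⟨v a, h2 a⟩, h1⟩ : WK) := hp' ⟨fun a => ⟨v a, h2 a⟩, h1⟩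
      funext a
      show (((p fun a => ⟨v a, h2 a⟩ : WK) : α → K) a : ℂ) = v a
      rw [h4]
    | zero => rw [mulVec_zero]
    | add u v _ _ hu hv => rw [mulVec_add, hu, hv]
    | smul c v _ hv => rw [mulVec_smul, hv]

/-! ### sequences of subspaces -/

variable {B : Type} [Fintype B] [DecidableEq B]

/-- a space of matrices as a space of functions -/
def flat (V : Submodule ℂ (Matrix B B ℂ)) : Submodule ℂ (B × B → ℂ) where
  carrier := {y | um y ∈ V}
  zero_mem' := by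
    show um 0 ∈ V
    rw [um_zero]
    exact V.zero_mem
  add_mem' := by
    intro a b ha hb
    show um (a + b) ∈ V
    rw [um_add]
    exact V.add_mem ha hb
  smul_mem' := by
    intro c a ha
    show um (c • a) ∈ V
    rw [um_smul]
    exact V.smul_mem c ha

theorem mem_flat {V : Submodule ℂ (Matrix B B ℂ)} {w : Matrix B B ℂ} : fl w ∈ flat V ↔ w ∈ V := Iff.rfl

/-- the ultraproduct of the subspaces -/
noncomputable def Lw (V : ℕ → Submodule ℂ (Matrix B B ℂ)) : Submodule (U ℂ) (Matrix B B (U ℂ)) :=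
  Lst fun k => flat (V k)

theorem mem_Lw {V : ℕ → Submodule ℂ (Matrix B B ℂ)} {F : ℕ → Matrix B B ℂ} :
    gm F ∈ Lw V ↔ ∀ᶠ k in (hyperfilter ℕ : Filter ℕ), F k ∈ V k := mem_Lst

theorem Lw_br {V : ℕ → Submodule ℂ (Matrix B B ℂ)} (h : ∀ k, ∀ x ∈ V k, ∀ y ∈ V k, x * y - y * x ∈ V k) :
    ∀ x ∈ Lw V, ∀ y ∈ Lw V, x * y - y * x ∈ Lw V := by
  rintro _ ⟨F, rfl, hF⟩ _ ⟨G, rfl, hG⟩
  refine ⟨fun k => F k * G k - G k * F k, ?_, fun k => h k _ (hF k) _ (hG k)⟩
  rw [gm_sub, gm_mul, gm_mul]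

theorem mk_fsum {ι : Type} (s : Finset ι) (f : ι → ℕ → ℂ) : (mk ℂ fun k => ∑ i ∈ s, f i k) = ∑ i ∈ s, mk ℂ (f i) := by
  rw [← map_sum]
  congr 1
  funext k
  rw [Finset.sum_apply]

/-- the ultraproduct of subspaces which are defined over fields of constants is stable under derivations -/
theorem der_Lw {K : ℕ → Subfield ℂ} (hK : ∀ (x : ℕ → ℂ), (∀ k, x k ∈ K k) → ∀ δ : DD, δ (mk ℂ x) = 0)
    {V : ℕ → Submodule ℂ (Matrix B B ℂ)} (hdef : ∀ k, DefOver (K k) (flat (V k))) (δ : DD) {w : Matrix B B (U ℂ)}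
    (hw : w ∈ Lw V) : dm δ w ∈ Lw V := by
  choose π h1 h2 h3 using fun k => exists_rproj (hdef k)
  obtain ⟨F, rfl, hF⟩ := hw
  have key : ∀ G : ℕ → Matrix B B ℂ, ∀ i j, (gm fun k => um (π k *ᵥ fl (G k))) i j =
      ∑ p : B × B, mk ℂ (fun k => π k (i, j) p) * gm G p.1 p.2 := by
    intro G i j
    rw [gm_apply]
    have e : (fun k => um (π k *ᵥ fl (G k)) i j) = fun k => ∑ p : B × B, π k (i, j) p * G k p.1 p.2 := rfl
    rw [e, mk_fsum]
    refine Finset.sum_congr rfl fun p _ => ?_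
    rw [gm_apply, ← map_mul]
    rfl
  obtain ⟨G, hG⟩ := gm_surj (dm δ (gm F))
  have hFF : gm (fun k => um (π k *ᵥ fl (F k))) = gm F := by
    congr 1
    funext k
    rw [h3 k _ (hF k), um_fl]
  have h4 : dm δ (gm F) = gm fun k => um (π k *ᵥ fl (G k)) := by
    ext i j
    rw [key G i j, hG]
    have h5 : gm F i j = ∑ p : B × B, mk ℂ (fun k => π k (i, j) p) * gm F p.1 p.2 := by
      conv_lhs => rw [← hFF]
      exact key F i j
    show δ (gm F i j) = _
    rw [h5, map_sum]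
    refine Finset.sum_congr rfl fun p _ => ?_
    rw [Derivation.leibniz, hK _ (fun k => h1 k _ _) δ, smul_zero, add_zero, smul_eq_mul]
    rfl
  rw [h4]
  exact ⟨_, rfl, fun k => h2 k _⟩

theorem const_QQ (x : ℕ → ℂ) (hx : ∀ k, x k ∈ QQ) (δ : DD) : δ (mk ℂ x) = 0 := by
  choose q hq using hx
  have h1 : mk ℂ x = algebraMap (U ℚ) (U ℂ) (mk ℚ q) := by
    have h2 : x = fun k => ((q k : ℚ) : ℂ) := funext fun k => (hq k).symm
    rw [h2]
    rfl
  rw [h1]
  exact Derivation.map_algebraMap _ _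

theorem const_bdd {K : ℕ → Subfield ℂ} {d : ℕ} (hK : ∀ k, FiniteDimensional ℚ (K k)) (hD : ∀ k, finrank ℚ (K k) ≤ d)
    (x : ℕ → ℂ) (hx : ∀ k, x k ∈ K k) (δ : DD) : δ (mk ℂ x) = 0 := der_alg δ (alg_mk hK hD hx)

theorem flat_def {K : Subfield ℂ} {V : Submodule ℂ (Matrix B B ℂ)} (h : ∀ f : ℂ →ₗ[K] ℂ, ∀ w ∈ V, w.map f ∈ V) :
    DefOver K (flat V) := by
  refine Pool.Agent.TH119.DR.defOver_of_map fun f w hw => ?_
  exact h f _ hw

/-- the conjugate of a subspace -/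
def cjV (c : Matrix B B ℂ) (V : Submodule ℂ (Matrix B B ℂ)) : Submodule ℂ (Matrix B B ℂ) where
  carrier := {w | c * w * c⁻¹ ∈ V}
  zero_mem' := by
    show c * 0 * c⁻¹ ∈ V
    rw [Matrix.mul_zero, Matrix.zero_mul]
    exact V.zero_mem
  add_mem' := by
    intro a b ha hb
    show c * (a + b) * c⁻¹ ∈ V
    rw [Matrix.mul_add, Matrix.add_mul]
    exact V.add_mem ha hb
  smul_mem' := by
    intro r a ha
    show c * (r • a) * c⁻¹ ∈ V
    rw [Matrix.mul_smul, Matrix.smul_mul]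
    exact V.smul_mem _ ha

/-- **The Lie algebras are normalised by the logarithmic derivatives.** -/
theorem normW {K : ℕ → Subfield ℂ} {d : ℕ} (hK : ∀ k, FiniteDimensional ℚ (K k)) (hD : ∀ k, finrank ℚ (K k) ≤ d)
    {V : ℕ → Submodule ℂ (Matrix B B ℂ)} {c : ℕ → Matrix B B ℂ} (hc : ∀ k, (c k).det ≠ 0)
    (h1 : ∀ k (f : ℂ →ₗ[QQ] ℂ), ∀ w ∈ V k, w.map f ∈ V k)
    (h2 : ∀ k (f : ℂ →ₗ[K k] ℂ), ∀ w ∈ V k, c k * ((c k)⁻¹ * w * c k).map f * (c k)⁻¹ ∈ V k) (δ : DD)
    {w : Matrix B B (U ℂ)} (hw : w ∈ Lw V) : ld c δ * w - w * ld c δ ∈ Lw V := by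
  have hu : IsUnit (gm c).det := gm_unit hc
  have hcc : ∀ k, (c k)⁻¹ * c k = 1 := fun k => Matrix.nonsing_inv_mul _ (hc k).isUnit
  have hcc' : ∀ k, c k * (c k)⁻¹ = 1 := fun k => Matrix.mul_nonsing_inv _ (hc k).isUnit
  have hginv : gm (fun k => (c k)⁻¹) = (gm c)⁻¹ := by
    symm
    refine Matrix.inv_eq_left_inv ?_
    rw [← gm_mul, ← gm_one]
    congr 1
    funext k
    exact hcc k
  have e1 : (gm c)⁻¹ * gm c = 1 := Matrix.nonsing_inv_mul _ hu
  have e2 : gm c * (gm c)⁻¹ = 1 := Matrix.mul_nonsing_inv _ hu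
  -- the Betti side
  have a1 : dm δ w ∈ Lw V := der_Lw (K := fun _ => QQ) (fun x hx δ => const_QQ x hx δ) (fun k => flat_def (h1 k)) δ hw
  -- the de Rham side
  set V' : ℕ → Submodule ℂ (Matrix B B ℂ) := fun k => cjV (c k) (V k) with hV'
  have hV'def : ∀ k, DefOver (K k) (flat (V' k)) := by
    intro k
    refine flat_def fun f w hw => ?_
    have h3 := h2 k f _ hw
    have h4 : (c k)⁻¹ * (c k * w * (c k)⁻¹) * c k = w := by
      calc (c k)⁻¹ * (c k * w * (c k)⁻¹) * c k = ((c k)⁻¹ * c k) * w * ((c k)⁻¹ * c k) := by simp only [Matrix.mul_assoc]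
        _ = w := by rw [hcc, Matrix.one_mul, Matrix.mul_one]
    rw [h4] at h3
    exact h3
  have a2 : (gm c)⁻¹ * w * gm c ∈ Lw V' := by
    obtain ⟨F, rfl, hF⟩ := hw
    rw [← hginv, ← gm_mul, ← gm_mul]
    refine ⟨_, rfl, fun k => ?_⟩
    show c k * ((c k)⁻¹ * F k * c k) * (c k)⁻¹ ∈ V k
    have h4 : c k * ((c k)⁻¹ * F k * c k) * (c k)⁻¹ = F k := by
      calc c k * ((c k)⁻¹ * F k * c k) * (c k)⁻¹ = (c k * (c k)⁻¹) * F k * (c k * (c k)⁻¹) := by
            simp only [Matrix.mul_assoc]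
        _ = F k := by rw [hcc', Matrix.one_mul, Matrix.mul_one]
    rw [h4]
    exact hF k
  have a3 : dm δ ((gm c)⁻¹ * w * gm c) ∈ Lw V' := der_Lw (const_bdd hK hD) hV'def δ a2
  have a4 : gm c * dm δ ((gm c)⁻¹ * w * gm c) * (gm c)⁻¹ ∈ Lw V := by
    obtain ⟨F, hF, hF'⟩ := a3
    rw [← hF, ← hginv, ← gm_mul, ← gm_mul]
    exact ⟨_, rfl, fun k => hF' k⟩
  have hd : dm δ (gm c)⁻¹ = -((gm c)⁻¹ * dm δ (gm c) * (gm c)⁻¹) := by
    have h5 := congrArg (dm δ) e1
    have h6 : dm δ (1 : Matrix B B (U ℂ)) = 0 := by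
      ext i j
      show δ ((1 : Matrix B B (U ℂ)) i j) = 0
      rw [Matrix.one_apply]
      split_ifs
      · exact Derivation.map_one_eq_zero _
      · exact map_zero _
    rw [dm_mul, h6] at h5
    have h7 := congrArg (fun X => X * (gm c)⁻¹) h5
    simp only [Matrix.add_mul, Matrix.zero_mul] at h7
    rw [Matrix.mul_assoc, e2, Matrix.mul_one] at h7
    exact eq_neg_of_add_eq_zero_left h7
  have a5 : gm c * dm δ ((gm c)⁻¹ * w * gm c) * (gm c)⁻¹ = dm δ w - (ld c δ * w - w * ld c δ) := by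
    rw [dm_mul, dm_mul, hd, ld_apply]
    set g := gm c
    set D := dm δ g
    calc g * ((-(g⁻¹ * D * g⁻¹) * w + g⁻¹ * dm δ w) * g + g⁻¹ * w * D) * g⁻¹ =
        -((g * g⁻¹) * D * g⁻¹ * w * (g * g⁻¹)) + (g * g⁻¹) * dm δ w * (g * g⁻¹) + (g * g⁻¹) * w * (D * g⁻¹) := by
          noncomm_ring
      _ = _ := by
        rw [e2]
        noncomm_ring
  rw [a5] at a4
  have a6 := Submodule.sub_mem _ a1 a4
  rwa [sub_sub_cancel] at a6

end Pool.Agent.H936.W
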