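import Pool.Agent.H936.W.Lev

/-!
# Block matrices
-/

set_option autoImplicit false
set_option linter.unusedSectionVars false
set_option linter.unusedVariables false
set_option maxHeartbeats 400000

open Matrix Module

namespace Pool.Agent.H936.W

variable {F : Type} [Field F] {α J R : Type} [Fintype α] [DecidableEq α] [Fintype J] [DecidableEq J] [Fintype R] [DecidableEq R]

/-- the block matrix `(a, z, 0; 0, t, 0; y, w, l)` -/
def bl (a : Matrix α α F) (z : Matrix α J F) (t : Matrix J J F) (y : Matrix R α F) (w : Matrix R J F) (l : Matrix R R F) :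
    Matrix ((α ⊕ J) ⊕ R) ((α ⊕ J) ⊕ R) F := fromBlocks (fromBlocks a z 0 t) 0 (fromCols y w) l

section
variable {a a' : Matrix α α F} {z z' : Matrix α J F} {t t' : Matrix J J F} {y y' : Matrix R α F} {w w' : Matrix R J F}
  {l l' : Matrix R R F}

theorem fc_add (y y' : Matrix R α F) (w w' : Matrix R J F) : fromCols y w + fromCols y' w' = fromCols (y + y') (w + w') := by
  ext i (j | j) <;> rfl

theorem bl_mul : bl a z t y w l * bl a' z' t' y' w' l' =
    bl (a * a') (a * z' + z * t') (t * t') (y * a' + l * y') (y * z' + w * t' + l * w') (l * l') := by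
  unfold bl
  rw [fromBlocks_multiply, fromBlocks_multiply, fromCols_mul_fromBlocks]
  simp only [Matrix.mul_zero, Matrix.zero_mul, add_zero, zero_add, Matrix.mul_fromCols, fc_add]

theorem bl_add : bl a z t y w l + bl a' z' t' y' w' l' = bl (a + a') (z + z') (t + t') (y + y') (w + w') (l + l') := by
  unfold bl
  rw [fromBlocks_add, fromBlocks_add, fc_add, add_zero, add_zero]

theorem bl_smul (c : F) : c • bl a z t y w l = bl (c • a) (c • z) (c • t) (c • y) (c • w) (c • l) := by
  unfold bl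
  have h : c • fromCols y w = fromCols (c • y) (c • w) := by
    ext i (j | j) <;> rfl
  rw [fromBlocks_smul, fromBlocks_smul, h, smul_zero, smul_zero]

theorem bl_neg : -bl a z t y w l = bl (-a) (-z) (-t) (-y) (-w) (-l) := by
  have h := bl_smul (a := a) (z := z) (t := t) (y := y) (w := w) (l := l) (-1 : F)
  simpa only [neg_smul, one_smul] using h

theorem bl_sub : bl a z t y w l - bl a' z' t' y' w' l' = bl (a - a') (z - z') (t - t') (y - y') (w - w') (l - l') := by
  rw [sub_eq_add_neg, bl_neg, bl_add]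
  simp only [sub_eq_add_neg]

theorem bl_zero : bl (0 : Matrix α α F) (0 : Matrix α J F) 0 (0 : Matrix R α F) 0 0 = 0 := by
  have h := bl_smul (a := (0 : Matrix α α F)) (z := (0 : Matrix α J F)) (t := 0) (y := (0 : Matrix R α F)) (w := 0) (l := 0)
    (0 : F)
  simpa only [zero_smul] using h.symm

theorem bl_map {F' : Type} [Field F'] (f : F → F') (hf : f 0 = 0) :
    (bl a z t y w l).map f = bl (a.map f) (z.map f) (t.map f) (y.map f) (w.map f) (l.map f) := by
  unfold bl
  rw [fromBlocks_map, fromBlocks_map, Matrix.map_zero _ hf, Matrix.map_zero _ hf]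
  congr 1
  ext i (j | j) <;> rfl

theorem bl_inj (h : bl a z t y w l = bl a' z' t' y' w' l') : a = a' ∧ z = z' ∧ t = t' ∧ y = y' ∧ w = w' ∧ l = l' := by
  unfold bl at h
  obtain ⟨h1, -, h3, h4⟩ := fromBlocks_inj.1 h
  obtain ⟨h5, h6, -, h7⟩ := fromBlocks_inj.1 h1
  obtain ⟨h8, h9⟩ := fromCols_inj h3
  exact ⟨h5, h6, h7, h8, h9, h4⟩

theorem bl_det : (bl a z t y w l).det = a.det * t.det * l.det := by
  unfold bl
  rw [det_fromBlocks_zero₁₂, det_fromBlocks_zero₂₁]

theorem bl_inv (h : (bl a z t y w l).det ≠ 0) : ∃ z' y' w', (bl a z t y w l)⁻¹ = bl a⁻¹ z' t⁻¹ y' w' l⁻¹ := by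
  rw [bl_det] at h
  have ha : IsUnit a := (Matrix.isUnit_iff_isUnit_det _).2 (left_ne_zero_of_mul (left_ne_zero_of_mul h)).isUnit
  have ht : IsUnit t := (Matrix.isUnit_iff_isUnit_det _).2 (right_ne_zero_of_mul (left_ne_zero_of_mul h)).isUnit
  have hl : IsUnit l := (Matrix.isUnit_iff_isUnit_det _).2 (right_ne_zero_of_mul h).isUnit
  have hu : IsUnit (fromBlocks a z 0 t) := by
    rw [Matrix.isUnit_iff_isUnit_det, det_fromBlocks_zero₂₁]
    exact (left_ne_zero_of_mul h).isUnit
  unfold bl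
  rw [inv_fromBlocks_zero₁₂_of_isUnit_iff _ _ _ ⟨fun _ => hl, fun _ => hu⟩,
    inv_fromBlocks_zero₂₁_of_isUnit_iff _ _ _ ⟨fun _ => ht, fun _ => ha⟩]
  set X := -(l⁻¹ * fromCols y w * fromBlocks a⁻¹ (-(a⁻¹ * z * t⁻¹)) 0 t⁻¹) with hX
  refine ⟨-(a⁻¹ * z * t⁻¹), X.toCols₁, X.toCols₂, ?_⟩
  rw [fromCols_toCols]

end

end Pool.Agent.H936.W
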