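import Pool.Agent.H936.W.Ult

/-!
# Lie algebras through the periods of the fibres: the general theorems
-/

set_option autoImplicit false
set_option linter.unusedSectionVars false
set_option linter.unusedVariables false
set_option maxHeartbeats 400000

open Matrix Module Filter PowerSeries

namespace Pool.Agent.H936.W

open Pool.Agent.Y113 (ev Cv GSys ps)
open Pool.Agent.Y120.GH (QU0)
open Pool.Agent.Y118.HV (Hv hh)
open Pool.Agent.Helper880_LF (spS mem_spS comm_mem)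
open Pool.Agent.Helper880_LF.NB (gm dm)
open Pool.Agent.Helper880_R3 (Ix ib Tot GU lieB Inf rel_all hder_seq windows)
open Pool.Agent.Y118.UL (mk U ev_ge)
open Pool.Agent.Y119.HY (cm cm_pow cm_apply)
open Pool.Agent.Y102 (AbVar)
open Pool.Agent.H936.SL
open Pool.Agent.H936.G

variable {n N r₀ g : ℕ}

/-- **at most one exceptional fibre** -/
theorem finV_exc (hg : 2 ≤ g) {Z : Matrix (Fin (2 * g)) (Fin (2 * g)) ℚ⟦X⟧} {T : Polynomial ℤ}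
    {A : Fin (2 * g * (2 * g)) → Fin (2 * g * (2 * g)) → Polynomial ℤ}
    (hT : T ≠ 0) (hode : ∀ i, ps T * d⁄dX ℚ (hh Z i) = ∑ j, ps (A i j) * hh Z j)
    {q' : ℕ} {C' : ℝ} (hG' : GSys q' C' T (hh Z)) (hqu : QU0 T A) :
    ∃ G : ℕ, 1 ≤ G ∧ ∀ (C B : Mn (2 * g) ℂ) (H M : Matrix (Fin (2 * g)) (Fin (2 * g)) ℚ) (θ : ℂ), Cen C H M B θ →
      (∀ X ∈ lieB B, Inf Z X) → ∀ (N D r₀ : ℕ) (C₀ : Matrix (Fin r₀) (Fin r₀) ℂ), C₀.det ≠ 0 →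
      (∀ σ : ℕ → ℂ, FewG (finrank (U ℂ) (spS (cu (cm H⁻¹))) + (2 * g - 1)) (csq C M σ) C₀) →
      ∃ E : ℕ, ∀ a b c : ℕ, (b - a + 2) ^ E ≤ a → ∃ t₀ : ℕ, ∀ t : Fin N → ℕ, Function.Injective t →
      (∀ j, a ≤ t j ∧ t j ≤ b ∧ t j ≡ c [MOD G] ∧ t j ≠ t₀) →
      (∀ j, (Hv Z (t j)).det ≠ 0) →
      ∀ K : Subfield ℂ, FiniteDimensional ℚ K → finrank ℚ K ≤ D →
      ∀ V : Submodule ℂ (Matrix (Ix r₀ (2 * g) N) (Ix r₀ (2 * g) N) ℂ),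
      Sp K (cm H⁻¹) (Tot C₀ fun j => PP C M Z (t j)) V → ∀ i, ∀ X ∈ spS (cm H⁻¹), ib (r₀ := r₀) i X ∈ V := by
  classical
  obtain ⟨G, hG, hpts⟩ := pts hT hode hG' hqu
  refine ⟨G, hG, fun C B H M θ hc hI N D r₀ C₀ hC0 hfew => ?_⟩
  by_contra hcon
  simp only [not_exists, not_forall] at hcon
  choose a b c hab t hinj hrange hdet K hK hKD V hV hb X hX hbad using hcon
  -- the bad tuples
  let q : ℕ → Option (Fin N) → ℕ := fun k x => x.elim 0 fun i => t k 0 i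
  obtain ⟨⟨m, e⟩, hme⟩ := pigeon (α := (m : Fin (Fintype.card (Option (Fin N) × Fin N) + 1)) × (Option (Fin N) × Fin N → Fin m))
    fun k => ⟨(pattern fun x : Option (Fin N) × Fin N => t k (q k x.1) x.2).choose,
      (pattern fun x : Option (Fin N) × Fin N => t k (q k x.1) x.2).choose_spec.choose⟩
  have hpat : ∀ K, ∃ k, K ≤ k ∧ ∃ s : Fin m → ℕ, Function.Injective s ∧ (∀ x : Option (Fin N) × Fin N,
      s (e x) = t k (q k x.1) x.2) ∧ ∀ i, ∃ x, e x = i := by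
    intro K
    obtain ⟨k, hk, hk'⟩ := hme K
    refine ⟨k, hk, ?_⟩
    have h1 := (pattern fun x : Option (Fin N) × Fin N => t k (q k x.1) x.2).choose_spec.choose_spec
    have h2 := (Sigma.mk.inj_iff.1 hk').1
    have h3 := (Sigma.mk.inj_iff.1 hk').2
    subst h2
    rw [heq_eq_eq] at h3
    subst h3
    exact h1
  have hN0 : Nonempty (Fin N) := by
    by_contra hcon
    exact hcon ⟨hb 0 0⟩
  obtain ⟨i₀⟩ := hN0
  have hm : 0 < (m : ℕ) := Fin.pos (e (none, i₀))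
  obtain ⟨E0, hE0⟩ := hpts C B H M θ hc hI m hm
  choose φ hφ s hs1 hs2 hs3 using fun k => hpat (E0 + k)
  -- the points
  have hsr : ∀ k i, a (φ k) ≤ s k i ∧ s k i ≤ b (φ k) ∧ s k i ≡ c (φ k) [MOD G] := by
    intro k i
    obtain ⟨x, rfl⟩ := hs3 k i
    rw [hs2]
    obtain ⟨h1, h2, h3, -⟩ := hrange (φ k) (q (φ k) x.1) x.2
    exact ⟨h1, h2, h3⟩
  have hw : ∀ k i j, (s k i - s k j + 2) ^ (E0 + k) ≤ s k j := by
    intro k i j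
    have h1 := hsr k i
    have h2 := hsr k j
    calc (s k i - s k j + 2) ^ (E0 + k) ≤ (b (φ k) - a (φ k) + 2) ^ (E0 + k) := Nat.pow_le_pow_left (by omega) _
      _ ≤ (b (φ k) - a (φ k) + 2) ^ (φ k) := Nat.pow_le_pow_right (by omega) (hφ k)
      _ ≤ a (φ k) := hab (φ k)
      _ ≤ _ := h2.1
  have hdet' : ∀ k i, (Hv Z (s k i)).det ≠ 0 := by
    intro k i
    obtain ⟨x, rfl⟩ := hs3 k i
    rw [hs2]
    exact hdet _ _ _
  obtain ⟨σ, z, hsq, hzP⟩ := (hE0 s hs1 (fun k i j => (hsr k i).2.2.trans (hsr k j).2.2.symm) hw hdet').ex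
  obtain ⟨p, hp⟩ := coreV2 hc.skewJ (cm_unit' hc.hd) (by omega) hsq hC0 (ι := Option (Fin N)) none (e := fun x i => e (x, i))
    (fun x i j hij => by
      have h1 := congrArg (s 0) hij
      simp only [hs2] at h1
      exact hinj _ _ h1)
    (K := fun x k => K (φ k) (q (φ k) x)) (fun x k => hK _ _)
    (fun x k => hKD _ _) (V := fun x k => V (φ k) (q (φ k) x)) (fun x k => by
      simp only [hzP, hs2]
      exact hV _ _) (hfew σ)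
    (fun x hx => by
      obtain ⟨k, hk⟩ := hx.exists
      exact hbad _ _ (hk _ _ (hX _ _)))
  obtain ⟨i, hi⟩ := hp none
  obtain ⟨j, hj⟩ := hp (some i)
  have h1 := hs2 0 (none, i)
  have h2 := hs2 0 (some i, j)
  rw [hi] at h1
  rw [hj] at h2
  obtain ⟨-, -, -, h3⟩ := hrange (φ 0) (q (φ 0) (some i)) j
  apply h3
  show t (φ 0) (q (φ 0) (some i)) j = t (φ 0) (q (φ 0) none) i
  rw [← h1, ← h2]

/-- **all fibres** -/
theorem finV_good (hg : 2 ≤ g) {Z : Matrix (Fin (2 * g)) (Fin (2 * g)) ℚ⟦X⟧} {T : Polynomial ℤ}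
    {A : Fin (2 * g * (2 * g)) → Fin (2 * g * (2 * g)) → Polynomial ℤ}
    (hT : T ≠ 0) (hode : ∀ i, ps T * d⁄dX ℚ (hh Z i) = ∑ j, ps (A i j) * hh Z j)
    {q' : ℕ} {C' : ℝ} (hG' : GSys q' C' T (hh Z)) (hqu : QU0 T A) :
    ∃ G : ℕ, 1 ≤ G ∧ ∀ (C B : Mn (2 * g) ℂ) (H M : Matrix (Fin (2 * g)) (Fin (2 * g)) ℚ) (θ : ℂ), Cen C H M B θ →
      (∀ X ∈ lieB B, Inf Z X) → ∀ (N D r₀ : ℕ) (C₀ : Matrix (Fin r₀) (Fin r₀) ℂ), 0 < N → C₀.det ≠ 0 →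
      (∀ σ : ℕ → ℂ, FewG (finrank (U ℂ) (spS (cu (cm H⁻¹)))) (csq C M σ) C₀) →
      (∀ σ : ℕ → ℂ, ∃ 𝔉 : Submodule (U ℂ) (Mn (2 * g) (U ℂ)), 𝔉 ≤ spS (cu (cm H⁻¹)) ∧
        (∀ δ : DD, ∃ c : U ℂ, ld (csq C M σ) δ + c • (1 : Mn (2 * g) (U ℂ)) ∈ 𝔉) ∧
        (∀ 𝔩 : Submodule (U ℂ) (Mn (2 * g) (U ℂ)), 𝔩 ≤ spS (cu (cm H⁻¹)) → TN 𝔩 → (∀ X ∈ spS (cu (cm H⁻¹)), ∃ Z B, X = Z + B ∧
      Z ∈ spS (cu (cm H⁻¹)) ∧ B ∈ 𝔉 ∧ ∀ Y ∈ 𝔩, Z * Y - Y * Z ∈ 𝔩) → 𝔩 = ⊥ ∨ 𝔩 = spS (cu (cm H⁻¹)))) →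
      ∃ E : ℕ, ∀ t : Fin N → ℕ, Function.Injective t → (∀ i j, t i ≡ t j [MOD G]) → (∀ i j, (t i - t j + 2) ^ E ≤ t j) →
      (∀ j, (Hv Z (t j)).det ≠ 0) →
      ∀ K : Subfield ℂ, FiniteDimensional ℚ K → finrank ℚ K ≤ D →
      ∀ V : Submodule ℂ (Matrix (Ix r₀ (2 * g) N) (Ix r₀ (2 * g) N) ℂ),
      Sp K (cm H⁻¹) (Tot C₀ fun j => PP C M Z (t j)) V → ∀ i, ∀ X ∈ spS (cm H⁻¹), ib (r₀ := r₀) i X ∈ V := by
  classical
  obtain ⟨G, hG, hpts⟩ := pts hT hode hG' hqu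
  refine ⟨G, hG, fun C B H M θ hc hI N D r₀ C₀ hN hC0 hfew hgood => ?_⟩
  obtain ⟨E0, hE0⟩ := hpts C B H M θ hc hI N hN
  by_contra hcon
  simp only [not_exists, not_forall] at hcon
  choose t hinj hmod hw hdet K hK hKD V hV hb X hX hbad using fun k : ℕ => hcon (E0 + k)
  obtain ⟨σ, z, hsq, hzP⟩ := (hE0 t hinj hmod hw hdet).ex
  obtain ⟨𝔉, h1, h2, h3⟩ := hgood σ
  have hj := coreV1 hc.skewJ (cm_unit' hc.hd) hsq hC0 hK hKD (fun k => by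
      simp only [hzP]
      exact hV k) h1 h2 h3 (hfew σ)
  obtain ⟨k, hk⟩ := hj.exists
  exact hbad k (hk _ _ (hX k))

end Pool.Agent.H936.W
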