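import Pool.Agent.H936.W.Bl

/-!
# The pure part of the Lie algebra of a torsor of mixed objects
-/

set_option autoImplicit false
set_option linter.unusedSectionVars false
set_option linter.unusedVariables false
set_option maxHeartbeats 400000

open Matrix Module

namespace Pool.Agent.H936.W

open Pool.Agent.Helper880_LF (spS mem_spS comm_mem)
open Pool.Agent.Helper880_R3 (Ix Tot ib)
open Pool.Agent.Y102 (AbVar QBar tau)
open Pool.Agent.Y119.HY (cm cm_apply cm_mul cm_one cm_transpose)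
open Pool.Agent.R917 (QQ)
open Pool.Agent.Y123.ST (fl um LL LL_def RR RR_def logder_mem fl_um um_fl conj_mem conj_mem')
open Pool.Agent.TH127.PT (IsSubtorsor)
open Pool.Agent.TH119.DR (DefOver deriv_alg lin_mul lin_mul')
open Pool.Agent.H936.SL

/-- a rational matrix as a complex matrix -/
def rc {α β : Type} (X : Matrix α β ℚ) : Matrix α β ℂ := X.map fun q : ℚ => (q : ℂ)

theorem rc_mul {α β γ : Type} [Fintype β] (X : Matrix α β ℚ) (Y : Matrix β γ ℚ) : rc (X * Y) = rc X * rc Y := by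
  ext i j
  show (((X * Y) i j : ℚ) : ℂ) = (rc X * rc Y) i j
  rw [Matrix.mul_apply, Matrix.mul_apply, Rat.cast_sum]
  exact Finset.sum_congr rfl fun k _ => Rat.cast_mul _ _

theorem rc_one {α : Type} [DecidableEq α] : rc (1 : Matrix α α ℚ) = 1 := by
  ext i j
  show (((1 : Matrix α α ℚ) i j : ℚ) : ℂ) = (1 : Matrix α α ℂ) i j
  rw [Matrix.one_apply, Matrix.one_apply]
  split_ifs
  · exact Rat.cast_one
  · exact Rat.cast_zero

theorem rc_QQ {α β : Type} (X : Matrix α β ℚ) (i : α) (j : β) : rc X i j ∈ QQ := ⟨X i j, rfl⟩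

section lin
variable {K : Subfield ℂ} {α β γ : Type} [Fintype β]

theorem Kmul_map (f : ℂ →ₗ[K] ℂ) {X : Matrix α β ℂ} (hX : ∀ i j, X i j ∈ K) (Y : Matrix β γ ℂ) :
    (X * Y).map f = X * Y.map f := by
  ext i j
  rw [Matrix.map_apply, Matrix.mul_apply, Matrix.mul_apply, map_sum]
  exact Finset.sum_congr rfl fun k _ => lin_mul f (hX i k) _

theorem mulK_map (f : ℂ →ₗ[K] ℂ) (X : Matrix α β ℂ) {Y : Matrix β γ ℂ} (hY : ∀ i j, Y i j ∈ K) :
    (X * Y).map f = X.map f * Y := by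
  ext i j
  rw [Matrix.map_apply, Matrix.mul_apply, Matrix.mul_apply, map_sum]
  exact Finset.sum_congr rfl fun k _ => lin_mul' f (hY k j) _

end lin

section der
variable {α β γ : Type} [Fintype β]

theorem Dmul_map (D : Derivation QBar ℂ ℂ) {X : Matrix α β ℂ} (hX : ∀ i j, IsAlgebraic ℚ (X i j)) (Y : Matrix β γ ℂ) :
    (X * Y).map D = X * Y.map D := by
  ext i j
  rw [Matrix.map_apply, Matrix.mul_apply, Matrix.mul_apply, map_sum]
  refine Finset.sum_congr rfl fun k _ => ?_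
  rw [mul_comm, D_mul_alg D (hX i k), Matrix.map_apply, mul_comm]

theorem mulD_map (D : Derivation QBar ℂ ℂ) (X : Matrix α β ℂ) {Y : Matrix β γ ℂ} (hY : ∀ i j, IsAlgebraic ℚ (Y i j)) :
    (X * Y).map D = X.map D * Y := by
  ext i j
  rw [Matrix.map_apply, Matrix.mul_apply, Matrix.mul_apply, map_sum]
  refine Finset.sum_congr rfl fun k _ => ?_
  rw [D_mul_alg D (hY k j), Matrix.map_apply]

end der

/-- the block diagonal matrix with repetitions -/
def bd {F : Type} [Zero F] {n N m : ℕ} (jj : Fin m → Fin N) (x : Fin N → Matrix (Fin n) (Fin n) F) :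
    Matrix (Fin n × Fin m) (Fin n × Fin m) F := blockDiagonal fun i => x (jj i)

section bdl
variable {n N m : ℕ} (jj : Fin m → Fin N)

theorem bd_mul (x y : Fin N → Matrix (Fin n) (Fin n) ℂ) : bd jj x * bd jj y = bd jj fun j => x j * y j :=
  (blockDiagonal_mul _ _).symm

theorem bd_add (x y : Fin N → Matrix (Fin n) (Fin n) ℂ) : bd jj x + bd jj y = bd jj fun j => x j + y j :=
  (blockDiagonal_add _ _).symm

theorem bd_sub (x y : Fin N → Matrix (Fin n) (Fin n) ℂ) : bd jj x - bd jj y = bd jj fun j => x j - y j :=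
  (blockDiagonal_sub _ _).symm

theorem bd_smul (c : ℂ) (x : Fin N → Matrix (Fin n) (Fin n) ℂ) : c • bd jj x = bd jj fun j => c • x j :=
  (blockDiagonal_smul _ _).symm

theorem bd_zero : bd jj (fun _ => (0 : Matrix (Fin n) (Fin n) ℂ)) = 0 := blockDiagonal_zero

theorem bd_one : bd jj (fun _ => (1 : Matrix (Fin n) (Fin n) ℂ)) = 1 := blockDiagonal_one

theorem bd_map (f : ℂ → ℂ) (hf : f 0 = 0) (x : Fin N → Matrix (Fin n) (Fin n) ℂ) :
    (bd jj x).map f = bd jj fun j => (x j).map f := blockDiagonal_map _ _ hf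

theorem bd_inv {x : Fin N → Matrix (Fin n) (Fin n) ℂ} (h : ∀ j, IsUnit (x j).det) :
    (bd jj x)⁻¹ = bd jj fun j => (x j)⁻¹ := by
  refine Matrix.inv_eq_right_inv ?_
  rw [bd_mul]
  have : (fun j => x j * (x j)⁻¹) = fun _ => 1 := funext fun j => Matrix.mul_nonsing_inv _ (h j)
  rw [this, bd_one]

end bdl

/-- the data of the weight `-1` part: a rational basis, a basis over `K`, and the periods -/
structure MD {n N m : ℕ} {α : Type} [Fintype α] [DecidableEq α] (K : Subfield ℂ) (P : Fin N → Matrix (Fin n) (Fin n) ℂ)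
    (jj : Fin m → Fin N) (R : Matrix (Fin n × Fin m) α ℚ) (R' : Matrix α (Fin n × Fin m) ℚ)
    (U : Matrix α (Fin n × Fin m) ℂ) (U' : Matrix (Fin n × Fin m) α ℂ) (a₀ : Matrix α α ℂ) : Prop where
  r1 : R * R' = 1
  r2 : R' * R = 1
  u1 : U * U' = 1
  u2 : U' * U = 1
  uK : ∀ i j, U i j ∈ K
  uK' : ∀ i j, U' i j ∈ K
  pu : ∀ j, IsUnit (P j).det
  eq : rc R * a₀ * U = bd jj P

section md
variable {n N m : ℕ} {α : Type} [Fintype α] [DecidableEq α] {K : Subfield ℂ} {P : Fin N → Matrix (Fin n) (Fin n) ℂ}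
    {jj : Fin m → Fin N} {R : Matrix (Fin n × Fin m) α ℚ} {R' : Matrix α (Fin n × Fin m) ℚ}
    {U : Matrix α (Fin n × Fin m) ℂ} {U' : Matrix (Fin n × Fin m) α ℂ} {a₀ : Matrix α α ℂ}

theorem MD.c1 (h : MD K P jj R R' U U' a₀) : rc R * rc R' = 1 := by rw [← rc_mul, h.r1, rc_one]

theorem MD.c2 (h : MD K P jj R R' U U' a₀) : rc R' * rc R = 1 := by rw [← rc_mul, h.r2, rc_one]

theorem MD.Pinv (h : MD K P jj R R' U U' a₀) : (bd jj fun j => (P j)⁻¹) * bd jj P = 1 := by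
  rw [bd_mul]
  have : (fun j => (P j)⁻¹ * P j) = fun _ => 1 := funext fun j => Matrix.nonsing_inv_mul _ (h.pu j)
  rw [this, bd_one]

theorem MD.Pinv' (h : MD K P jj R R' U U' a₀) : bd jj P * (bd jj fun j => (P j)⁻¹) = 1 := by
  rw [bd_mul]
  have : (fun j => P j * (P j)⁻¹) = fun _ => 1 := funext fun j => Matrix.mul_nonsing_inv _ (h.pu j)
  rw [this, bd_one]

theorem MD.a0 (h : MD K P jj R R' U U' a₀) : a₀ = rc R' * bd jj P * U' := by
  rw [← h.eq]
  calc a₀ = (rc R' * rc R) * a₀ * (U * U') := by rw [h.c2, h.u1, Matrix.one_mul, Matrix.mul_one]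
    _ = _ := by simp only [Matrix.mul_assoc]

theorem MD.a0inv (h : MD K P jj R R' U U' a₀) : a₀⁻¹ = U * (bd jj fun j => (P j)⁻¹) * rc R := by
  refine Matrix.inv_eq_right_inv ?_
  rw [h.a0]
  calc rc R' * bd jj P * U' * (U * (bd jj fun j => (P j)⁻¹) * rc R) =
      rc R' * (bd jj P * (U' * U) * bd jj fun j => (P j)⁻¹) * rc R := by simp only [Matrix.mul_assoc]
    _ = 1 := by rw [h.u2, Matrix.mul_one, h.Pinv', Matrix.mul_one, h.c2]

theorem MD.a0det (h : MD K P jj R R' U U' a₀) : IsUnit a₀.det := by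
  have h1 : a₀ * (U * (bd jj fun j => (P j)⁻¹) * rc R) = 1 := by
    rw [h.a0]
    calc rc R' * bd jj P * U' * (U * (bd jj fun j => (P j)⁻¹) * rc R) =
        rc R' * (bd jj P * (U' * U) * bd jj fun j => (P j)⁻¹) * rc R := by simp only [Matrix.mul_assoc]
      _ = 1 := by rw [h.u2, Matrix.mul_one, h.Pinv', Matrix.mul_one, h.c2]
  have h2 := congrArg Matrix.det h1
  rw [Matrix.det_mul, Matrix.det_one] at h2
  exact IsUnit.of_mul_eq_one _ h2

/-- conjugation, and a linear map over `K` -/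
theorem MD.cj (h : MD K P jj R R' U U' a₀) (f : ℂ →ₗ[K] ℂ) {a : Matrix α α ℂ} {x : Fin N → Matrix (Fin n) (Fin n) ℂ}
    (ha : rc R * a * rc R' = bd jj x) : rc R * (a₀ * (a₀⁻¹ * a * a₀).map f * a₀⁻¹) * rc R' =
      bd jj fun j => P j * ((P j)⁻¹ * x j * P j).map f * (P j)⁻¹ := by
  have e1 : a₀⁻¹ * a * a₀ = U * (bd jj fun j => (P j)⁻¹ * x j * P j) * U' := by
    rw [h.a0inv]
    conv_lhs => rw [h.a0]
    calc U * (bd jj fun j => (P j)⁻¹) * rc R * a * (rc R' * bd jj P * U') =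
        U * ((bd jj fun j => (P j)⁻¹) * (rc R * a * rc R') * bd jj P) * U' := by simp only [Matrix.mul_assoc]
      _ = _ := by rw [ha, bd_mul, bd_mul]
  have e2 : (U * (bd jj fun j => (P j)⁻¹ * x j * P j) * U').map f =
      U * (bd jj fun j => ((P j)⁻¹ * x j * P j).map f) * U' := by
    rw [mulK_map f _ h.uK', Kmul_map f h.uK, bd_map jj f (map_zero f)]
  rw [e1, e2]
  conv_lhs => rw [h.a0inv]
  conv_lhs => rw [h.a0]
  calc rc R * (rc R' * bd jj P * U' * (U * (bd jj fun j => ((P j)⁻¹ * x j * P j).map f) * U') *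
        (U * (bd jj fun j => (P j)⁻¹) * rc R)) * rc R' =
      (rc R * rc R') * (bd jj P * (U' * U) * (bd jj fun j => ((P j)⁻¹ * x j * P j).map f) * (U' * U) *
        (bd jj fun j => (P j)⁻¹)) * (rc R * rc R') := by simp only [Matrix.mul_assoc]
    _ = _ := by
      rw [h.c1, h.u2, Matrix.one_mul, Matrix.mul_one, Matrix.mul_one, Matrix.mul_one, bd_mul, bd_mul]

/-- the logarithmic derivative -/
theorem MD.dl (h : MD K P jj R R' U U' a₀) (hK : ∀ x ∈ K, IsAlgebraic ℚ x) (D : Derivation QBar ℂ ℂ) :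
    rc R * (a₀.map D * a₀⁻¹) * rc R' = bd jj fun j => (P j).map D * (P j)⁻¹ := by
  have hR' : ∀ i j, IsAlgebraic ℚ (rc R' i j) := fun i j => isAlgebraic_algebraMap (A := ℂ) (R' i j)
  have e1 : a₀.map D = rc R' * (bd jj fun j => (P j).map D) * U' := by
    conv_lhs => rw [h.a0]
    rw [mulD_map D _ fun i j => hK _ (h.uK' i j), Dmul_map D hR', bd_map jj D (map_zero D)]
  rw [e1, h.a0inv]
  calc rc R * (rc R' * (bd jj fun j => (P j).map D) * U' * (U * (bd jj fun j => (P j)⁻¹) * rc R)) * rc R' =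
      (rc R * rc R') * ((bd jj fun j => (P j).map D) * (U' * U) * (bd jj fun j => (P j)⁻¹)) * (rc R * rc R') := by
        simp only [Matrix.mul_assoc]
    _ = _ := by rw [h.c1, h.u2, Matrix.one_mul, Matrix.mul_one, Matrix.mul_one, bd_mul]

end md

section gr
variable {n N m : ℕ} {α J R₁ : Type} [Fintype α] [DecidableEq α] [Fintype J] [DecidableEq J] [Fintype R₁] [DecidableEq R₁]

theorem smul_br (e e' : ℂ) : (e • (1 : Matrix J J ℂ)) * (e' • 1) - (e' • 1) * (e • 1) = (0 : ℂ) • 1 := by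
  rw [Matrix.smul_mul, Matrix.smul_mul, Matrix.one_mul, Matrix.one_mul, smul_smul, smul_smul, mul_comm, sub_self, zero_smul]

/-- **the pure part** -/
def gr (jj : Fin m → Fin N) (R : Matrix (Fin n × Fin m) α ℚ) (R' : Matrix α (Fin n × Fin m) ℚ)
    (Λ : Submodule ℂ (Matrix ((α ⊕ J) ⊕ R₁) ((α ⊕ J) ⊕ R₁) ℂ)) : Submodule ℂ (Matrix (Ix 1 n N) (Ix 1 n N) ℂ) where
  carrier := {v | ∃ (e : ℂ) (x : Fin N → Matrix (Fin n) (Fin n) ℂ) (a : Matrix α α ℂ) (z : Matrix α J ℂ)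
    (y : Matrix R₁ α ℂ) (w : Matrix R₁ J ℂ), bl a z (e • 1) y w 0 ∈ Λ ∧ rc R * a * rc R' = bd jj x ∧ v = Tot (e • 1) x}
  zero_mem' := by
    refine ⟨0, fun _ => 0, 0, 0, 0, 0, ?_, ?_, ?_⟩
    · rw [zero_smul, bl_zero]
      exact Λ.zero_mem
    · rw [Matrix.mul_zero, Matrix.zero_mul, bd_zero]
    · rw [zero_smul, Tot_zero]
  add_mem' := by
    rintro _ _ ⟨e, x, a, z, y, w, h1, h2, rfl⟩ ⟨e', x', a', z', y', w', h1', h2', rfl⟩
    refine ⟨e + e', fun j => x j + x' j, a + a', z + z', y + y', w + w', ?_, ?_, ?_⟩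
    · have h3 := Λ.add_mem h1 h1'
      rw [bl_add, ← add_smul, add_zero] at h3
      exact h3
    · rw [Matrix.mul_add, Matrix.add_mul, h2, h2', bd_add]
    · rw [Tot_add, ← add_smul]
  smul_mem' := by
    rintro c _ ⟨e, x, a, z, y, w, h1, h2, rfl⟩
    refine ⟨c * e, fun j => c • x j, c • a, c • z, c • y, c • w, ?_, ?_, ?_⟩
    · have h3 := Λ.smul_mem c h1
      rw [bl_smul, smul_smul, smul_zero] at h3
      exact h3
    · rw [Matrix.mul_smul, Matrix.smul_mul, h2, bd_smul]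
    · rw [Tot_smul, smul_smul]

variable {g : ℕ} {K : Subfield ℂ} {A : Fin N → AbVar g} {H : Matrix (Fin (2 * g)) (Fin (2 * g)) ℚ}
    {P : Fin N → Matrix (Fin (2 * g)) (Fin (2 * g)) ℂ} {R₂ : Fin N → Matrix (Fin (2 * g)) (Fin (2 * g)) ℚ}
    {jj : Fin m → Fin N} {R : Matrix (Fin (2 * g) × Fin m) α ℚ} {R' : Matrix α (Fin (2 * g) × Fin m) ℚ}
    {U : Matrix α (Fin (2 * g) × Fin m) ℂ} {U' : Matrix (Fin (2 * g) × Fin m) α ℂ}
    {a₀ : Matrix α α ℂ} {z₀ : Matrix α J ℂ} {t₀ : Matrix J J ℂ} {y₀ : Matrix R₁ α ℂ} {w₀ : Matrix R₁ J ℂ}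
    {l₀ : Matrix R₁ R₁ ℂ} {S : Set (Matrix ((α ⊕ J) ⊕ R₁) ((α ⊕ J) ⊕ R₁) ℂ)}

theorem Tot_unit' {C₀ : Matrix (Fin 1) (Fin 1) ℂ} (hC : C₀.det ≠ 0) (hP : ∀ j, IsUnit (P j).det) :
    IsUnit (Tot C₀ P) := by
  refine IsUnit.of_mul_eq_one (Tot C₀⁻¹ fun j => (P j)⁻¹) ?_
  rw [Tot_mul', Matrix.mul_nonsing_inv _ hC.isUnit]
  have h3 : (fun j => P j * (P j)⁻¹) = fun _ => 1 := funext fun j => Matrix.mul_nonsing_inv _ (hP j)
  rw [h3, Tot_one']

theorem scal_cj {β : Type} [Fintype β] [DecidableEq β] {C : Matrix β β ℂ} (hC : IsUnit C.det) (e : ℂ) :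
    C⁻¹ * (e • 1) * C = e • 1 := by
  rw [Matrix.mul_smul, Matrix.mul_one, Matrix.smul_mul, Matrix.nonsing_inv_mul _ hC]

theorem scal_cj' {β : Type} [Fintype β] [DecidableEq β] {C : Matrix β β ℂ} (hC : IsUnit C.det) (e : ℂ) :
    C * (e • 1) * C⁻¹ = e • 1 := by
  rw [Matrix.mul_smul, Matrix.mul_one, Matrix.smul_mul, Matrix.mul_nonsing_inv _ hC]

theorem tau_ld {β : Type} [Fintype β] [DecidableEq β] (D : Derivation QBar ℂ ℂ) {b C b' : Matrix β β ℂ} {τ : ℂ} (hτ : τ ≠ 0)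
    (hC : C = τ • b) (hb : ∀ i j, IsAlgebraic ℚ (b i j)) (hbb : C * b' = 1) : C.map D * b' = (D τ / τ) • 1 := by
  have e1 : C.map D = (D τ / τ) • C := by
    rw [hC]
    ext i j
    have e2 : D (τ * b i j) = D τ * b i j := D_mul_alg D (hb i j) τ
    have e3 : (D τ / τ) * (τ * b i j) = D τ * b i j := by
      rw [← mul_assoc, div_mul_cancel₀ _ hτ]
    exact e2.trans e3.symm
  rw [e1, Matrix.smul_mul, hbb]

theorem one_alg {β : Type} [DecidableEq β] (i j : β) : IsAlgebraic ℚ ((1 : Matrix β β ℂ) i j) := by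
  rw [Matrix.one_apply]
  split_ifs
  · exact isAlgebraic_one
  · exact isAlgebraic_zero

/-- **the pure part of the Lie algebra of a torsor** -/
theorem gr_lev (hK : ∀ x ∈ K, IsAlgebraic ℚ x) (hS : IsSubtorsor K S) (hr : RatGrp S)
    (hc : bl a₀ z₀ t₀ y₀ w₀ l₀ ∈ S) (hmd : MD K P jj R R' U U' a₀)
    {b₃ : Matrix J J ℂ} (ht : t₀ = (tau : ℂ) • b₃) (hb : ∀ i j, IsAlgebraic ℚ (b₃ i j))
    (hl : ∀ i j, IsAlgebraic ℚ (l₀ i j)) (hp : ∀ j, Pres (A j) H (P j) (R₂ j)) (hd : IsUnit H.det) :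
    LvS K A H ((tau : ℂ) • (1 : Matrix (Fin 1) (Fin 1) ℂ)) P R₂ (gr jj R R' (Lm S)) := by
  have hτ : (tau : ℂ) ≠ 0 := AbVar.tau_ne
  have hC0 : ((tau : ℂ) • (1 : Matrix (Fin 1) (Fin 1) ℂ)).det ≠ 0 := by
    rw [Matrix.det_smul, Matrix.det_one, mul_one]
    exact pow_ne_zero _ hτ
  have hcu := hS.isUnit _ hc
  have hcd : (bl a₀ z₀ t₀ y₀ w₀ l₀).det ≠ 0 := ((Matrix.isUnit_iff_isUnit_det _).1 hcu).ne_zero
  obtain ⟨z₁, y₁, w₁, hinv⟩ := bl_inv hcd
  rw [bl_det] at hcd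
  have htd : IsUnit t₀.det := (right_ne_zero_of_mul (left_ne_zero_of_mul hcd)).isUnit
  have hld : IsUnit l₀.det := (right_ne_zero_of_mul hcd).isUnit
  have hTu := Tot_unit' hC0 hmd.pu
  have htt : t₀ * t₀⁻¹ = 1 := Matrix.mul_nonsing_inv _ htd
  have htt' : t₀⁻¹ * t₀ = 1 := Matrix.nonsing_inv_mul _ htd
  refine ⟨hK, ?_, ?_, ?_, ?_, hTu, hp, hd⟩
  · -- brackets
    rintro _ ⟨e, x, a, z, y, w, h1, h2, rfl⟩ _ ⟨e', x', a', z', y', w', h1', h2', rfl⟩
    have h3 := LL_br hS ⟨_, hc⟩ h1 h1'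
    rw [bl_mul, bl_mul, bl_sub, smul_br, Matrix.mul_zero, sub_self] at h3
    refine ⟨0, fun j => x j * x' j - x' j * x j, _, _, _, _, h3, ?_, ?_⟩
    · have e1 : rc R * (a * a' - a' * a) * rc R' = (rc R * a * rc R') * (rc R * a' * rc R') -
          (rc R * a' * rc R') * (rc R * a * rc R') := by
        have e2 : ∀ a a' : Matrix α α ℂ, (rc R * a * rc R') * (rc R * a' * rc R') = rc R * (a * a') * rc R' := by
          intro a a'
          calc (rc R * a * rc R') * (rc R * a' * rc R') = rc R * a * (rc R' * rc R) * a' * rc R' := by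
                simp only [Matrix.mul_assoc]
            _ = _ := by
              rw [hmd.c2, Matrix.mul_one]
              simp only [Matrix.mul_assoc]
        rw [e2, e2, Matrix.mul_sub, Matrix.sub_mul]
      rw [e1, h2, h2', bd_mul, bd_mul, bd_sub]
    · rw [Tot_br, smul_br]
  · -- the rational structure
    rintro f _ ⟨e, x, a, z, y, w, h1, h2, rfl⟩
    have h3 := Lm_map hS hr f h1
    have hf0 : f 0 = 0 := map_zero f
    have hsm : ∀ {β : Type} [Fintype β] [DecidableEq β], (e • (1 : Matrix β β ℂ)).map f = f e • 1 := by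
      intro β _ _
      ext i j
      rw [Matrix.map_apply, Matrix.smul_apply, Matrix.smul_apply, Matrix.one_apply]
      split_ifs
      · rw [smul_eq_mul, mul_one, smul_eq_mul, mul_one]
      · rw [smul_eq_mul, mul_zero, map_zero, smul_eq_mul, mul_zero]
    rw [bl_map _ hf0, hsm, Matrix.map_zero _ hf0] at h3
    refine ⟨f e, fun j => (x j).map f, _, _, _, _, h3, ?_, ?_⟩
    · rw [← Kmul_map f (rc_QQ R), ← mulK_map f _ (rc_QQ R'), h2, bd_map jj f hf0]
    · rw [Tot_map _ hf0, hsm]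
  · -- the de Rham structure
    rintro f _ ⟨e, x, a, z, y, w, h1, h2, rfl⟩
    have hf0 : f 0 = 0 := map_zero f
    have hsm : ∀ {β : Type} [Fintype β] [DecidableEq β], (e • (1 : Matrix β β ℂ)).map f = f e • 1 := by
      intro β _ _
      ext i j
      rw [Matrix.map_apply, Matrix.smul_apply, Matrix.smul_apply, Matrix.one_apply]
      split_ifs
      · rw [smul_eq_mul, mul_one, smul_eq_mul, mul_one]
      · rw [smul_eq_mul, mul_zero, map_zero, smul_eq_mul, mul_zero]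
    set c := bl a₀ z₀ t₀ y₀ w₀ l₀ with hcdef
    have k1 : fl (c⁻¹ * bl a z (e • 1) y w 0 * c) ∈ RR S := conj_mem hS hc h1
    have k2 : fl ((c⁻¹ * bl a z (e • 1) y w 0 * c).map f) ∈ RR S := (RR_def hS).map f k1
    have k3 : c * (c⁻¹ * bl a z (e • 1) y w 0 * c).map f * c⁻¹ ∈ Lm S := conj_mem' hS hc k2
    rw [hinv, hcdef, bl_mul, bl_mul, bl_map _ hf0, bl_mul, bl_mul] at k3
    have et : t₀⁻¹ * (e • (1 : Matrix J J ℂ)) * t₀ = e • 1 := scal_cj htd e
    have et' : t₀ * (f e • (1 : Matrix J J ℂ)) * t₀⁻¹ = f e • 1 := scal_cj' htd (f e)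
    have el : l₀ * (l₀⁻¹ * 0 * l₀).map f * l₀⁻¹ = (0 : Matrix R₁ R₁ ℂ) := by
      rw [Matrix.mul_zero, Matrix.zero_mul, Matrix.map_zero _ hf0, Matrix.mul_zero, Matrix.zero_mul]
    rw [et, hsm, et', el] at k3
    refine ⟨f e, _, _, _, _, _, k3, hmd.cj f h2, ?_⟩
    rw [Tot_inv hTu, Tot_mul', Tot_mul', Tot_map _ hf0, Tot_mul', Tot_mul']
    congr 1
    rw [scal_cj hC0.isUnit, hsm, scal_cj' hC0.isUnit]
  · -- the logarithmic derivatives
    intro D
    have hD0 : D 0 = 0 := map_zero D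
    have h1 : (bl a₀ z₀ t₀ y₀ w₀ l₀).map (dK D K hK) * (bl a₀ z₀ t₀ y₀ w₀ l₀)⁻¹ ∈ Lm S := logder_mem hS (dK D K hK) hc
    have h1' : (bl a₀ z₀ t₀ y₀ w₀ l₀).map D * (bl a₀ z₀ t₀ y₀ w₀ l₀)⁻¹ ∈ Lm S := h1
    have hl0 : l₀.map D * l₀⁻¹ = 0 := by
      have h2 : l₀.map D = 0 := by
        ext i j
        exact D_alg D (hl i j)
      rw [h2, Matrix.zero_mul]
    have ht0 : t₀.map D * t₀⁻¹ = (D tau / tau) • 1 := tau_ld D hτ ht hb htt
    rw [hinv, bl_map _ hD0, bl_mul, ht0, hl0] at h1'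
    refine ⟨_, _, _, _, _, _, h1', hmd.dl hK D, ?_⟩
    rw [Tot_inv hTu, Tot_map _ hD0, Tot_mul']
    congr 1
    exact tau_ld D hτ rfl one_alg (Matrix.mul_nonsing_inv _ hC0.isUnit)

end gr

end Pool.Agent.H936.W
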