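import Pool.Agent.H936.W.Lvl

/-!
# Spaces of matrices over two number fields: the level
-/

set_option autoImplicit false
set_option linter.unusedSectionVars false
set_option linter.unusedVariables false
set_option maxHeartbeats 400000

open Matrix Module Filter

namespace Pool.Agent.H936.W

open Pool.Agent.Helper880_LF (spS mem_spS comm_mem)
open Pool.Agent.Helper880_R3 (Ix Tot)
open Pool.Agent.Y102 (AbVar QBar tau toC toC_eq)
open Pool.Agent.Y119.HY (cm cm_apply cm_mul cm_one cm_transpose)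
open Pool.Agent.W516.DR (X0 XX cmpE X0_mem IsDeRhamBettiEnd IsDeRhamBettiSubspace sub_of_stable)
open Pool.Agent.W516.KC (Semi IsSkew central_of_trace)
open Pool.Agent.R917 (PM QQ lamF lamF_apply exists_inv toC_cmpE X0_eq derQ)
open Pool.Agent.TH119.DR (DefOver)
open Pool.Agent.H936.SL

variable {g n N r₀ : ℕ} {K : Subfield ℂ}

/-- the data of a level: a Lie algebra of matrices which is defined over `ℚ` on the Betti side and over `K` on the
de Rham side, and which contains the logarithmic derivatives of the periods -/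
structure LvS (K : Subfield ℂ) (A : Fin N → AbVar g) (H : Matrix (Fin (2 * g)) (Fin (2 * g)) ℚ)
    (C₀ : Matrix (Fin r₀) (Fin r₀) ℂ) (P : Fin N → Matrix (Fin (2 * g)) (Fin (2 * g)) ℂ)
    (R : Fin N → Matrix (Fin (2 * g)) (Fin (2 * g)) ℚ)
    (V : Submodule ℂ (Matrix (Ix r₀ (2 * g) N) (Ix r₀ (2 * g) N) ℂ)) : Prop where
  alg : ∀ x ∈ K, IsAlgebraic ℚ x
  br : ∀ x ∈ V, ∀ y ∈ V, x * y - y * x ∈ V
  rat : ∀ f : ℂ →ₗ[QQ] ℂ, ∀ w ∈ V, w.map f ∈ V
  kdf : ∀ f : ℂ →ₗ[K] ℂ, ∀ w ∈ V, Tot C₀ P * ((Tot C₀ P)⁻¹ * w * Tot C₀ P).map f * (Tot C₀ P)⁻¹ ∈ V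
  ldm : ∀ D : Derivation QBar ℂ ℂ, (Tot C₀ P).map D * (Tot C₀ P)⁻¹ ∈ V
  unit : IsUnit (Tot C₀ P)
  pres : ∀ j, Pres (A j) H (P j) (R j)
  det : IsUnit H.det

theorem PjV_map {V : Submodule ℂ (Matrix (Ix r₀ n N) (Ix r₀ n N) ℂ)} (hV : ∀ f : ℂ →ₗ[QQ] ℂ, ∀ w ∈ V, w.map f ∈ V)
    (f : ℂ →ₗ[QQ] ℂ) {J : Matrix (Fin n) (Fin n) ℚ} {j : Fin N} {X : Matrix (Fin n) (Fin n) ℂ} (hX : X ∈ Pj (cm J) V j) :
    X.map f ∈ Pj (cm J) V j := by
  obtain ⟨h0, e, y, c, h1, h2, h3⟩ := hX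
  refine ⟨spS_map f h0, e.map f, fun i => (y i).map f, f c, ?_, fun i => GS_map f (h2 i), ?_⟩
  · rw [← Tot_map _ (map_zero f)]
    exact hV f _ h1
  · show (y j).map f = _
    rw [h3, map_addf, map_smul_one]

section lev
variable {A : Fin N → AbVar g} {H : Matrix (Fin (2 * g)) (Fin (2 * g)) ℚ}
    {C₀ : Matrix (Fin r₀) (Fin r₀) ℂ} {P : Fin N → Matrix (Fin (2 * g)) (Fin (2 * g)) ℂ}
    {R : Fin N → Matrix (Fin (2 * g)) (Fin (2 * g)) ℚ}
    {V : Submodule ℂ (Matrix (Ix r₀ (2 * g) N) (Ix r₀ (2 * g) N) ℂ)}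

/-- the components of the logarithmic derivatives -/
theorem LvS.cmp_mem (h : LvS K A H C₀ P R V) (D : Derivation QBar ℂ ℂ) (lam : ℂ →ₗ[ℚ] ℚ) :
    ∃ e, Tot e (fun j => bt (R j) (cmpE lam (XX (A j).basis D))) ∈ V := by
  have h1 := h.ldm D
  rw [Tot_inv h.unit, Tot_map _ (map_zero D), Tot_mul'] at h1
  have h2 := h.rat (lamF lam) _ h1
  rw [Tot_map _ (map_zero (lamF lam))] at h2
  have h3 : (fun j => ((P j).map D * (P j)⁻¹).map (lamF lam)) = fun j => bt (R j) (cmpE lam (XX (A j).basis D)) := by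
    funext j
    obtain ⟨P', e1, e2⟩ := exists_inv (A j)
    have e3 : (P j).map D * (P j)⁻¹ = cm (R j) * ((PM (A j)).map D * P') * (cm (R j))⁻¹ := (h.pres j).der D e1
    have hR : IsUnit (R j).det := by
      obtain ⟨T, T', q, hR, -⟩ := h.pres j
      exact hR
    rw [e3, cm_inv hR, map_mul_cm, cm_map_mul, ← toC_cmpE (A j) D e2 lam, bt_eq hR, cm_inv hR]
  rw [h3] at h2
  exact ⟨_, h2⟩

theorem LvS.R_unit (h : LvS K A H C₀ P R V) (j : Fin N) : IsUnit (R j).det := by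
  obtain ⟨T, T', q, hR, -⟩ := h.pres j
  exact hR

theorem LvS.X0_Pj (h : LvS K A H C₀ P R V) (D : Derivation QBar ℂ ℂ) (lam : ℂ →ₗ[ℚ] ℚ) (j : Fin N) :
    bt (R j) (X0 (A j).basis tau D lam) ∈ Pj (cm H⁻¹) V j := by
  obtain ⟨e, he⟩ := h.cmp_mem D lam
  have h1 : ∀ i, bt (R i) (cmpE lam (XX (A i).basis D)) = bt (R i) (X0 (A i).basis tau D lam) +
      ((lam (D tau / (2 * tau)) : ℚ) : ℂ) • (1 : Matrix (Fin (2 * g)) (Fin (2 * g)) ℂ) := by
    intro i
    rw [← X0_eq, bt_add, bt_smul, bt_one (h.R_unit i)]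
  have h2 : ∀ i, bt (R i) (X0 (A i).basis tau D lam) ∈ spS (cm H⁻¹) := fun i =>
    (skew_bt h.det (h.pres i) _).1 (X0_skew (A i) D lam)
  refine ⟨h2 j, e, _, _, he, fun i => ?_, h1 j⟩
  refine ⟨-((lam (D tau / (2 * tau)) : ℚ) : ℂ), ?_⟩
  rw [h1, add_assoc, ← add_smul, add_neg_cancel, zero_smul, add_zero]
  exact h2 i

/-- the rational Lie algebra -/
def hv (A : AbVar g) (R H : Matrix (Fin (2 * g)) (Fin (2 * g)) ℚ)
    (V : Submodule ℂ (Matrix (Ix r₀ (2 * g) N) (Ix r₀ (2 * g) N) ℂ)) (j : Fin N) : Submodule ℚ (Module.End ℚ A.H1) where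
  carrier := {X | bt R X ∈ Pj (cm H⁻¹) V j}
  zero_mem' := by
    show bt R 0 ∈ Pj (cm H⁻¹) V j
    rw [bt_zero]
    exact Submodule.zero_mem _
  add_mem' := by
    intro a b ha hb
    show bt R (a + b) ∈ Pj (cm H⁻¹) V j
    rw [bt_add]
    exact Submodule.add_mem _ ha hb
  smul_mem' := by
    intro c a ha
    show bt R (c • a) ∈ Pj (cm H⁻¹) V j
    rw [bt_smul]
    exact Submodule.smul_mem _ _ ha

theorem hv_br (h : LvS K A H C₀ P R V) (hH : Hᵀ = -H) (j : Fin N) :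
    ∀ X ∈ hv (A j) (R j) H V j, ∀ Y ∈ hv (A j) (R j) H V j, X * Y - Y * X ∈ hv (A j) (R j) H V j := by
  intro X hX Y hY
  show bt (R j) (X * Y - Y * X) ∈ Pj (cm H⁻¹) V j
  rw [bt_sub, bt_mul (h.R_unit j), bt_mul (h.R_unit j)]
  exact Pj_br (cm_skew hH) h.br _ hY _ hX

theorem hv_semi (h : LvS K A H C₀ P R V) (j : Fin N) : Semi (hv (A j) (R j) H V j) := by
  intro U hU
  have h1 : IsDeRhamBettiSubspace QBar (A j).dR U := by
    rw [← (A j).coe_basis]
    exact sub_of_stable (A j).basis (τ := tau) U fun D lam u hu => hU _ (h.X0_Pj D lam j) u hu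
  refine ⟨_, fun X hX u hu => ?_, (A j).isCompl_of_sub h1⟩
  intro v hv
  have hs : IsSkew (A j).om X := (skew_bt h.det (h.pres j) X).2 (Pj_le hX)
  have h2 := hs v u
  have h3 : (A j).om (X v) u = 0 := hu _ (hU X hX v hv)
  rw [h3, zero_add] at h2
  exact h2

/-- **the trace form of the rational Lie algebra** -/
theorem hv_trace (h : LvS K A H C₀ P R V) (hH : Hᵀ = -H) (j : Fin N) {X : Module.End ℚ (A j).H1}
    (hX : X ∈ hv (A j) (R j) H V j) (htr : ∀ Y ∈ hv (A j) (R j) H V j, LinearMap.trace ℚ (A j).H1 (X * Y) = 0) :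
    X = 0 := by
  have h1 := central_of_trace _ (hv_semi h j) (hv_br h hH j) hX htr
  have h2 : IsDeRhamBettiEnd QBar (A j).dR X :=
    (A j).end_of_central (𝔥 := hv (A j) (R j) H V j) (fun D lam => h.X0_Pj D lam j) h1
  obtain ⟨M, hM⟩ := (A j).hodge_end h2
  exact (A j).trace_sq hM ((skew_bt h.det (h.pres j) X).2 (Pj_le hX)) (htr X hX)

/-- **the trace form of the projection** -/
theorem LvS.TN (h : LvS K A H C₀ P R V) (hH : Hᵀ = -H) (j : Fin N) : TN (Pj (cm H⁻¹) V j) := by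
  intro X hX htr
  have hR := h.R_unit j
  ext a b
  by_contra hne
  obtain ⟨lam, hlam⟩ : ∃ lam : ℂ →ₗ[ℚ] ℚ, lam (X a b) ≠ 0 := by
    by_contra hcon
    push Not at hcon
    exact hne (Pool.Agent.W516.DR.eq_zero_of_dual hcon)
  have h1 := PjV_map h.rat (lamF lam) hX
  obtain ⟨X', hX'⟩ := bt_surj hR (X.map lam)
  have h2 : bt (R j) X' = X.map (lamF lam) := by
    rw [hX']
    ext i k
    rfl
  have h3 : X' ∈ hv (A j) (R j) H V j := by
    show bt (R j) X' ∈ Pj (cm H⁻¹) V j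
    rw [h2]
    exact h1
  have h4 : X' = 0 := by
    refine hv_trace h hH j h3 fun Y hY => ?_
    have h5 := htr _ hY
    have h6 : Matrix.trace (bt (R j) X' * bt (R j) Y) = lamF lam (Matrix.trace (X * bt (R j) Y)) := by
      unfold bt at h2 ⊢
      rw [h2, ← map_mul_cm]
      unfold Matrix.trace
      rw [map_sum]
      rfl
    rw [h5, map_zero, ← bt_mul hR, bt_trace hR] at h6
    rw [LinearMap.trace_mul_comm]
    exact_mod_cast h6
  rw [h4, bt_zero] at h2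
  have h5 := congrFun (congrFun h2 a) b
  rw [Matrix.map_apply, lamF_apply, Matrix.zero_apply] at h5
  exact hlam (by exact_mod_cast h5.symm)

/-- **the projection is not zero** -/
theorem LvS.ne (h : LvS K A H C₀ P R V) (hg : 0 < g) (j : Fin N) : Pj (cm H⁻¹) V j ≠ ⊥ := by
  intro hbot
  have h0 : ∀ (D : Derivation QBar ℂ ℂ) (lam : ℂ →ₗ[ℚ] ℚ), X0 (A j).basis tau D lam ∈
      (⊥ : Submodule ℚ (Module.End ℚ (A j).H1)) := by
    intro D lam
    have h1 := h.X0_Pj D lam j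
    rw [hbot, Submodule.mem_bot] at h1
    rw [Submodule.mem_bot]
    exact bt_inj (h.R_unit j) h1
  have h1 : ∀ Q : Module.End ℚ (A j).H1, IsDeRhamBettiEnd QBar (A j).dR Q := by
    intro Q
    refine (A j).end_of_central h0 fun Y hY => ?_
    rw [Submodule.mem_bot] at hY
    rw [hY, zero_mul, mul_zero]
  set u : (A j).H1 := Pi.single ⟨0, by omega⟩ 1 with hu
  have hu0 : u ≠ 0 := by
    intro h2
    have h3 := congrFun h2 ⟨0, by omega⟩
    rw [hu, Pi.single_eq_same] at h3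
    exact one_ne_zero h3
  set Q : Module.End ℚ (A j).H1 := ((A j).om u).smulRight u with hQ
  have hQa : ∀ v, Q v = (A j).om u v • u := fun v => rfl
  have huu : (A j).om u u = 0 := by
    have := (A j).om_anti u u
    linarith
  have hsk : IsSkew (A j).om Q := by
    intro v w
    rw [hQa, hQa, map_smul, map_smul, LinearMap.smul_apply, smul_eq_mul, smul_eq_mul, (A j).om_anti v u]
    ring
  have hsq : Q * Q = 0 := by
    refine LinearMap.ext fun v => ?_
    rw [Module.End.mul_apply, hQa (Q v), hQa v, map_smul, huu, smul_zero, zero_smul]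
    rfl
  obtain ⟨M, hM⟩ := (A j).hodge_end (h1 Q)
  have hQ0 := (A j).trace_sq hM hsk (by rw [hsq, map_zero])
  apply hu0
  apply (A j).om_nondeg
  intro v
  have h2 := hQa v
  rw [hQ0, LinearMap.zero_apply] at h2
  exact (smul_eq_zero.1 h2.symm).resolve_right hu0

end lev

end Pool.Agent.H936.W
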