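import Pool.Agent.H936.W.Tr

/-!
# 1-motives over products of fibres: the Lie algebra of the Hodge group
-/

set_option autoImplicit false
set_option linter.unusedSectionVars false
set_option linter.unusedVariables false
set_option maxHeartbeats 400000

open Matrix Module

namespace Pool.Agent.H936.W

open Pool.Agent.Helper880_LF (spS mem_spS comm_mem)
open Pool.Agent.Helper880_R3 (Ix Tot ib)
open Pool.Agent.Y102 (AbVar QBar tau)
open Pool.Agent.Y119.HY (cm cm_apply cm_mul cm_one cm_transpose)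
open Pool.Agent.W516.DR (IsDeRhamBettiEnd)
open Pool.Agent.W516.KC (IsSkew)
open Pool.Agent.Y123.ST (fl um LL)
open Pool.Agent.TH127.PT (IsSubtorsor)
open Pool.Agent.X306.AV (PA eqv mt cv dR_vec)
open Pool.Agent.H936.SL

/-! ### algebraic matrices -/

theorem exists_lift {K : Subfield ℂ} {β γ : Type} {b : Matrix β γ ℂ} (hb : ∀ i j, b i j ∈ K) :
    ∃ B : Matrix β γ K, B.map K.subtype = b := ⟨Matrix.of fun i j => ⟨b i j, hb i j⟩, by ext i j; rfl⟩

theorem inv_alg {β : Type} [Fintype β] [DecidableEq β] {b : Matrix β β ℂ} (hb : ∀ i j, IsAlgebraic ℚ (b i j)) :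
    ∀ i j, IsAlgebraic ℚ (b⁻¹ i j) := by
  obtain ⟨B, rfl⟩ := exists_lift (K := Pool.Agent.W245.EB.QB) (b := b) fun i j => Pool.Agent.W245.EB.mem_QB.2 (hb i j)
  have h1 : (B.map Pool.Agent.W245.EB.QB.subtype)⁻¹ = (B⁻¹).map Pool.Agent.W245.EB.QB.subtype := by
    rw [Matrix.inv_def, Matrix.inv_def]
    have h2 := RingHom.map_det Pool.Agent.W245.EB.QB.subtype B
    have h3 := RingHom.map_adjugate Pool.Agent.W245.EB.QB.subtype B
    rw [RingHom.mapMatrix_apply] at h2 h3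
    rw [RingHom.mapMatrix_apply] at h3
    rw [← h2, ← h3]
    ext i j
    rw [Matrix.smul_apply, Matrix.map_apply, Matrix.map_apply, Matrix.smul_apply, smul_eq_mul, smul_eq_mul, map_mul,
      Ring.inverse_eq_inv', Ring.inverse_eq_inv', map_inv₀]
  intro i j
  rw [h1]
  exact Pool.Agent.W245.EB.mem_QB.1 ((B⁻¹ i j).2)

theorem mul_alg {α β γ : Type} [Fintype β] {X : Matrix α β ℂ} {Y : Matrix β γ ℂ} (hX : ∀ i j, IsAlgebraic ℚ (X i j))
    (hY : ∀ i j, IsAlgebraic ℚ (Y i j)) : ∀ i j, IsAlgebraic ℚ ((X * Y) i j) := by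
  intro i j
  rw [Matrix.mul_apply]
  refine Pool.Agent.W245.EB.mem_QB.1 (Pool.Agent.W245.EB.QB.sum_mem fun k _ => ?_)
  exact Pool.Agent.W245.EB.mem_QB.2 ((hX i k).mul (hY k j))

theorem rc_alg {α β : Type} (X : Matrix α β ℚ) (i : α) (j : β) : IsAlgebraic ℚ (rc X i j) :=
  isAlgebraic_algebraMap (A := ℂ) (X i j)

theorem rc_inj {α β : Type} {X Y : Matrix α β ℚ} (h : rc X = rc Y) : X = Y := by
  ext i j
  have h1 := congrFun (congrFun h i) j
  exact Rat.cast_injective h1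

/-! ### operators on the rational homology -/

section ops
variable {g : ℕ} {A : AbVar g}

/-- the operator which multiplies rows by a matrix -/
def vl (A : AbVar g) (M : Matrix (Fin (2 * g)) (Fin (2 * g)) ℚ) : Module.End ℚ A.H1 := Matrix.vecMulLinear M

theorem vl_apply (M : Matrix (Fin (2 * g)) (Fin (2 * g)) ℚ) (v : A.H1) : vl A M v = v ᵥ* M := rfl

/-- the matrix of an operator (acting on rows) -/
def rm (X : Module.End ℚ A.H1) : Matrix (Fin (2 * g)) (Fin (2 * g)) ℚ := (LinearMap.toMatrix' X)ᵀ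

theorem rm_vec (X : Module.End ℚ A.H1) (v : A.H1) : X v = v ᵥ* rm X := by
  unfold rm
  rw [Matrix.vecMul_transpose, ← Matrix.toLin'_apply, Matrix.toLin'_toMatrix']

theorem mt_rm (X : Module.End ℚ A.H1) : mt X = rc (rm X) := by
  ext i j
  show ((X (Pi.single i 1) j : ℚ) : ℂ) = ((rm X i j : ℚ) : ℂ)
  rw [rm_vec, Matrix.single_one_vecMul]
  rfl

theorem cv_mul (v : Fin (2 * g) → ℚ) (M : Matrix (Fin (2 * g)) (Fin (2 * g)) ℚ) : cv (v ᵥ* M) = cv v ᵥ* rc M := by
  funext j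
  show ((∑ i, v i * M i j : ℚ) : ℂ) = ∑ i, (v i : ℂ) * ((M i j : ℚ) : ℂ)
  rw [Rat.cast_sum]
  exact Finset.sum_congr rfl fun i _ => Rat.cast_mul _ _

/-- operators which respect the de Rham structure -/
theorem EA_of {M : Matrix (Fin (2 * g)) (Fin (2 * g)) ℚ} {bb : Matrix (Fin (2 * g)) (Fin (2 * g)) ℂ}
    (hbb : ∀ i j, IsAlgebraic ℚ (bb i j)) (h : rc M * PA A = PA A * bb) : vl A M ∈ A.EA := by
  refine A.mem_EA.2 ⟨fun i j => ⟨bb (eqv g j) (eqv g i), mem_algebraicClosure_iff.2 (hbb _ _)⟩, fun i w => ?_⟩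
  rw [dR_vec, vl_apply, cv_mul, Matrix.vecMul_vecMul, h, ← Matrix.vecMul_vecMul]
  show ∑ k, (cv w ᵥ* PA A) k * bb k (eqv g i) = _
  rw [← (eqv g).sum_comp]
  refine Finset.sum_congr rfl fun j _ => ?_
  rw [dR_vec, mul_comm]
  rfl

theorem comm_rm {X : Module.End ℚ A.H1} {M : Matrix (Fin (2 * g)) (Fin (2 * g)) ℚ} (h : X * vl A M = vl A M * X) :
    M * rm X = rm X * M := by
  have h1 : ∀ v : Fin (2 * g) → ℚ, v ᵥ* (M * rm X) = v ᵥ* (rm X * M) := by
    intro v
    have h2 := congrArg (fun T : Module.End ℚ A.H1 => T v) h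
    simp only [Module.End.mul_apply] at h2
    rw [vl_apply, vl_apply, rm_vec X (v ᵥ* M), rm_vec X v, Matrix.vecMul_vecMul, Matrix.vecMul_vecMul] at h2
    exact h2
  ext i j
  have h2 := congrFun (h1 (Pi.single i 1)) j
  rw [Matrix.single_one_vecMul, Matrix.single_one_vecMul] at h2
  exact h2

theorem skew_rm {X : Module.End ℚ A.H1} (h : IsSkew A.om X) : rm X * EM A + EM A * (rm X)ᵀ = 0 := by
  have h1 := (skew_EM A X).1 h
  unfold rm
  rw [transpose_transpose]
  exact h1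

end ops

/-! ### matrix units -/

section units
variable {n N m : ℕ}

/-- a matrix unit -/
def GG (n : ℕ) {m : ℕ} (i i' : Fin m) : Matrix (Fin n × Fin m) (Fin n × Fin m) ℚ :=
  Matrix.of fun p q => if p.1 = q.1 ∧ p.2 = i ∧ q.2 = i' then 1 else 0

theorem GG_mul {F : Type} [Field F] [CharZero F] (i i' : Fin m) (Y : Matrix (Fin n × Fin m) (Fin n × Fin m) F) (p q : Fin n × Fin m) :
    ((GG n i i').map (fun x : ℚ => (x : F)) * Y) p q = if p.2 = i then Y (p.1, i') q else 0 := by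
  rw [Matrix.mul_apply]
  by_cases h : p.2 = i
  · rw [if_pos h, Finset.sum_eq_single (p.1, i')]
    · rw [Matrix.map_apply]
      show (((if p.1 = p.1 ∧ p.2 = i ∧ i' = i' then 1 else 0 : ℚ)) : F) * _ = _
      rw [if_pos ⟨rfl, h, rfl⟩, Rat.cast_one, one_mul]
    · intro r _ hr
      rw [Matrix.map_apply]
      show (((if p.1 = r.1 ∧ p.2 = i ∧ r.2 = i' then 1 else 0 : ℚ)) : F) * _ = _
      rw [if_neg (fun hcon => hr (Prod.ext hcon.1.symm hcon.2.2)), Rat.cast_zero, zero_mul]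
    · intro hh
      exact absurd (Finset.mem_univ _) hh
  · rw [if_neg h]
    refine Finset.sum_eq_zero fun r _ => ?_
    rw [Matrix.map_apply]
    show (((if p.1 = r.1 ∧ p.2 = i ∧ r.2 = i' then 1 else 0 : ℚ)) : F) * _ = _
    rw [if_neg (fun hcon => h hcon.2.1), Rat.cast_zero, zero_mul]

theorem mul_GG {F : Type} [Field F] [CharZero F] (i i' : Fin m) (Y : Matrix (Fin n × Fin m) (Fin n × Fin m) F) (p q : Fin n × Fin m) :
    (Y * (GG n i i').map (fun x : ℚ => (x : F))) p q = if q.2 = i' then Y p (q.1, i) else 0 := by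
  rw [Matrix.mul_apply]
  by_cases h : q.2 = i'
  · rw [if_pos h, Finset.sum_eq_single (q.1, i)]
    · rw [Matrix.map_apply]
      show _ * (((if q.1 = q.1 ∧ i = i ∧ q.2 = i' then 1 else 0 : ℚ)) : F) = _
      rw [if_pos ⟨rfl, rfl, h⟩, Rat.cast_one, mul_one]
    · intro r _ hr
      rw [Matrix.map_apply]
      show _ * (((if r.1 = q.1 ∧ r.2 = i ∧ q.2 = i' then 1 else 0 : ℚ)) : F) = _
      rw [if_neg (fun hcon => hr (Prod.ext hcon.1 hcon.2.1)), Rat.cast_zero, mul_zero]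
    · intro hh
      exact absurd (Finset.mem_univ _) hh
  · rw [if_neg h]
    refine Finset.sum_eq_zero fun r _ => ?_
    rw [Matrix.map_apply]
    show _ * (((if r.1 = q.1 ∧ r.2 = i ∧ q.2 = i' then 1 else 0 : ℚ)) : F) = _
    rw [if_neg (fun hcon => h hcon.2.2), Rat.cast_zero, mul_zero]

theorem GG_bd {jj : Fin m → Fin N} {i i' : Fin m} (h : jj i = jj i') (x : Fin N → Matrix (Fin n) (Fin n) ℂ) :
    rc (GG n i i') * bd jj x = bd jj x * rc (GG n i i') := by
  have e : rc (GG n i i') = (GG n i i').map (fun x : ℚ => (x : ℂ)) := rfl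
  ext p q
  rw [e, GG_mul, mul_GG]
  unfold bd
  rw [blockDiagonal_apply, blockDiagonal_apply]
  by_cases h1 : p.2 = i
  · by_cases h2 : q.2 = i'
    · rw [if_pos h1, if_pos h2, if_pos h2.symm, if_pos h1, h1, h]
    · rw [if_pos h1, if_neg h2, if_neg (Ne.symm h2)]
  · by_cases h2 : q.2 = i'
    · rw [if_neg h1, if_pos h2, if_neg h1]
    · rw [if_neg h1, if_neg h2]

/-- the commutant of the matrix units -/
theorem bd_of_comm {jj : Fin m → Fin N} {Y : Matrix (Fin n × Fin m) (Fin n × Fin m) ℚ}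
    (h : ∀ i i', jj i = jj i' → GG n i i' * Y = Y * GG n i i') : ∃ x : Fin N → Matrix (Fin n) (Fin n) ℚ, Y = bd jj x ∧
      ∀ j, (¬ ∃ i, jj i = j) → x j = 0 := by
  classical
  have e : ∀ i i' : Fin m, GG n i i' = (GG n i i').map (fun x : ℚ => (Rat.cast x : ℚ)) := fun i i' => by
    ext p q
    exact (Rat.cast_id _).symm
  have h1 : ∀ i i' (p q : Fin n × Fin m), jj i = jj i' →
      (if p.2 = i then Y (p.1, i') q else 0) = if q.2 = i' then Y p (q.1, i) else 0 := by
    intro i i' p q hi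
    have h2 := congrFun (congrFun (h i i' hi) p) q
    rw [e i i', GG_mul, mul_GG] at h2
    exact h2
  refine ⟨fun j => if hj : ∃ i, jj i = j then Matrix.of fun a c => Y (a, hj.choose) (c, hj.choose) else 0, ?_,
    fun j hj => dif_neg hj⟩
  ext ⟨a, k⟩ ⟨c, l⟩
  unfold bd
  rw [blockDiagonal_apply]
  by_cases hkl : k = l
  · subst hkl
    rw [if_pos rfl]
    have hj : ∃ i, jj i = jj k := ⟨k, rfl⟩
    show _ = (if hj : ∃ i, jj i = jj k then Matrix.of fun a c => Y (a, hj.choose) (c, hj.choose) else 0) a c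
    rw [dif_pos hj]
    show _ = Y (a, hj.choose) (c, hj.choose)
    have h3 := h1 hj.choose k (a, hj.choose) (c, k) hj.choose_spec
    rw [if_pos rfl, if_pos rfl] at h3
    exact h3
  · rw [if_neg hkl]
    have h3 := h1 k k (a, k) (c, l) rfl
    rw [if_pos rfl, if_neg (Ne.symm hkl)] at h3
    exact h3

end units

end Pool.Agent.H936.W
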