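import Pool.Agent.H936.W.Om
import Pool.Agent.H936.W.Fin

/-!
# 1-motives over products of fibres: the Lie algebra of the Hodge group, II
-/

set_option autoImplicit false
set_option linter.unusedSectionVars false
set_option linter.unusedVariables false
set_option maxHeartbeats 400000

open Matrix Module

namespace Pool.Agent.H936.W

open Pool.Agent.Helper880_LF (spS mem_spS comm_mem)
open Pool.Agent.Helper880_R3 (Ix Tot ib)
open Pool.Agent.Y102 (AbVar QBar tau)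
open Pool.Agent.Y119.HY (cm cm_apply cm_mul cm_one cm_transpose)
open Pool.Agent.W516.DR (IsDeRhamBettiEnd)
open Pool.Agent.W516.KC (IsSkew)
open Pool.Agent.Y123.ST (fl um LL)
open Pool.Agent.TH127.PT (IsSubtorsor)
open Pool.Agent.X306.AV (PA eqv mt cv dR_vec sm LS gR gN L0 mem_gR mem_gN mem_L0 EndM EndAlg mQ mC Sk cS cS_row0 RelQ prS RelN
  Nm Pt Fld shapeO half_mm mt_add_smul)
open Pool.Agent.X306.RL (GDef)
open Pool.Agent.W245.EB (QB mem_QB)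
open Pool.Agent.H936.SL

/-- an abelian variety which is isogenous to a product of fibres -/
structure PD {g g' N m : ℕ} (K : Subfield ℂ) (A : AbVar g') (H : Matrix (Fin (2 * g)) (Fin (2 * g)) ℚ)
    (P : Fin N → Matrix (Fin (2 * g)) (Fin (2 * g)) ℂ)
    (jj : Fin m → Fin N) (R : Matrix (Fin (2 * g) × Fin m) (Fin (2 * g')) ℚ) (R' : Matrix (Fin (2 * g')) (Fin (2 * g) × Fin m) ℚ)
    (U : Matrix (Fin (2 * g')) (Fin (2 * g) × Fin m) ℂ) (U' : Matrix (Fin (2 * g) × Fin m) (Fin (2 * g')) ℂ)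
    (b₁ : Matrix (Fin (2 * g')) (Fin (2 * g')) ℂ) : Prop where
  md : MD K P jj R R' U U' (PA A * b₁)
  alg : ∀ x ∈ K, IsAlgebraic ℚ x
  b1 : IsUnit b₁.det
  b1a : ∀ i j, IsAlgebraic ℚ (b₁ i j)
  leg : ∀ j, ∃ (B : Matrix (Fin (2 * g)) (Fin (2 * g)) ℂ) (q : ℚ), (∀ a c, IsAlgebraic ℚ (B a c)) ∧ q ≠ 0 ∧
    P j * B * (P j)ᵀ = (tau * q : ℂ) • rc H
  det : IsUnit H.det

theorem mul_alg_rc {α β : Type} {c : ℂ} {X : Matrix α β ℂ} (hc : IsAlgebraic ℚ c) (hX : ∀ i j, IsAlgebraic ℚ (X i j)) :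
    ∀ i j, IsAlgebraic ℚ ((c • X) i j) := fun i j => hc.mul (hX i j)

/-- the Legendre relation -/
theorem PA_leg {g : ℕ} (A : AbVar g) : ∃ Ω : Matrix (Fin (2 * g)) (Fin (2 * g)) ℂ, (∀ i j, IsAlgebraic ℚ (Ω i j)) ∧
    PA A * Ω * (PA A)ᵀ = (tau : ℂ) • rc (EM A) := by
  have hdrb : Pool.Agent.W516.DR.IsDeRhamBettiBilinear QBar A.dR tau A.om := A.om_drb
  obtain ⟨a, ha⟩ := hdrb
  refine ⟨Matrix.of fun p q => algebraMap QBar ℂ (a ((eqv g).symm p) ((eqv g).symm q)),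
    fun p q => QBar.alg (a ((eqv g).symm p) ((eqv g).symm q)), ?_⟩
  set Ω : Matrix (Fin (2 * g)) (Fin (2 * g)) ℂ := Matrix.of fun p q => algebraMap QBar ℂ (a ((eqv g).symm p) ((eqv g).symm q))
    with hΩ
  ext b c
  have h2 := ha (Pi.single b 1) (Pi.single c 1)
  rw [Matrix.smul_apply, smul_eq_mul]
  refine Eq.trans ?_ h2.symm
  rw [Matrix.mul_apply]
  have h4 : ∀ p, (PA A * Ω) b p = ∑ i, PA A b (eqv g i) * Ω (eqv g i) p := by
    intro p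
    rw [Matrix.mul_apply, ← Equiv.sum_comp (eqv g)]
  have h5 : ∀ c : Fin (2 * g), A.bas c = Pi.single c 1 := fun c => Pi.basisFun_apply ℚ (Fin (2 * g)) c
  rw [← Equiv.sum_comp (eqv g)]
  simp only [h4, Finset.sum_mul]
  rw [Finset.sum_comm]
  refine Finset.sum_congr rfl fun i _ => Finset.sum_congr rfl fun j _ => ?_
  rw [Matrix.transpose_apply, Pool.Agent.X306.AV.PA_apply, Pool.Agent.X306.AV.PA_apply, h5, h5, hΩ, Matrix.of_apply,
    Equiv.symm_apply_apply, Equiv.symm_apply_apply]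
  ring

/-- the matrix of the Riemann form is invertible -/
theorem EM_det {g : ℕ} (A : AbVar g) : IsUnit (EM A).det := by
  rw [isUnit_iff_ne_zero]
  intro h
  obtain ⟨v, hv, h1⟩ := Matrix.exists_vecMul_eq_zero_iff.2 h
  refine hv (A.om_nondeg fun w => ?_)
  rw [om_EM, Matrix.dotProduct_mulVec, h1, zero_dotProduct]

section
variable {g g' N m : ℕ} {K : Subfield ℂ} {A : AbVar g'} {H : Matrix (Fin (2 * g)) (Fin (2 * g)) ℚ}
    {P : Fin N → Matrix (Fin (2 * g)) (Fin (2 * g)) ℂ}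
    {jj : Fin m → Fin N} {R : Matrix (Fin (2 * g) × Fin m) (Fin (2 * g')) ℚ} {R' : Matrix (Fin (2 * g')) (Fin (2 * g) × Fin m) ℚ}
    {U : Matrix (Fin (2 * g')) (Fin (2 * g) × Fin m) ℂ} {U' : Matrix (Fin (2 * g) × Fin m) (Fin (2 * g')) ℂ}
    {b₁ : Matrix (Fin (2 * g')) (Fin (2 * g')) ℂ}

/-- the matrix units are endomorphisms -/
theorem PD.unit_EA (h : PD K A H P jj R R' U U' b₁) {i i' : Fin m} (hi : jj i = jj i') :
    vl A (R' * GG (2 * g) i i' * R) ∈ A.EA := by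
  have hb : b₁ * b₁⁻¹ = 1 := Matrix.mul_nonsing_inv _ h.b1
  refine EA_of (bb := b₁ * U * rc (GG (2 * g) i i') * U' * b₁⁻¹)
    (mul_alg (mul_alg (mul_alg (mul_alg h.b1a fun i j => h.alg _ (h.md.uK i j)) (rc_alg _)) fun i j => h.alg _ (h.md.uK' i j))
      (inv_alg h.b1a)) ?_
  have h1 : PA A = rc R' * bd jj P * U' * b₁⁻¹ := by
    rw [← h.md.a0, Matrix.mul_assoc, hb, Matrix.mul_one]
  have h2 : rc R * PA A = bd jj P * U' * b₁⁻¹ := by
    conv_lhs => rw [h1]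
    calc rc R * (rc R' * bd jj P * U' * b₁⁻¹) = (rc R * rc R') * bd jj P * U' * b₁⁻¹ := by simp only [Matrix.mul_assoc]
      _ = _ := by rw [h.md.c1, Matrix.one_mul]
  have h3 : PA A * b₁ * U = rc R' * bd jj P := by
    rw [h.md.a0, Matrix.mul_assoc, h.md.u2, Matrix.mul_one]
  calc rc (R' * GG (2 * g) i i' * R) * PA A = rc R' * rc (GG (2 * g) i i') * (rc R * PA A) := by
        rw [rc_mul, rc_mul, Matrix.mul_assoc]
    _ = rc R' * (rc (GG (2 * g) i i') * bd jj P) * U' * b₁⁻¹ := by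
      rw [h2]
      simp only [Matrix.mul_assoc]
    _ = (rc R' * bd jj P) * rc (GG (2 * g) i i') * U' * b₁⁻¹ := by
      rw [GG_bd hi]
      simp only [Matrix.mul_assoc]
    _ = _ := by
      rw [← h3]
      simp only [Matrix.mul_assoc]

theorem conj_comm {R : Matrix (Fin (2 * g) × Fin m) (Fin (2 * g')) ℚ} {R' : Matrix (Fin (2 * g')) (Fin (2 * g) × Fin m) ℚ}
    (r1 : R * R' = 1) {G : Matrix (Fin (2 * g) × Fin m) (Fin (2 * g) × Fin m) ℚ} {M : Matrix (Fin (2 * g')) (Fin (2 * g')) ℚ}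
    (h : R' * G * R * M = M * (R' * G * R)) : G * (R * M * R') = (R * M * R') * G := by
  calc G * (R * M * R') = (R * R') * G * (R * M * R') := by rw [r1, Matrix.one_mul]
    _ = R * (R' * G * R * M) * R' := by simp only [Matrix.mul_assoc]
    _ = R * M * R' * G * (R * R') := by
      rw [h]
      simp only [Matrix.mul_assoc]
    _ = _ := by rw [r1, Matrix.mul_one]

/-- the form of the fibre on one factor -/
def Hm (H : Matrix (Fin (2 * g)) (Fin (2 * g)) ℚ) {m : ℕ} (i : Fin m) : Matrix (Fin (2 * g) × Fin m) (Fin (2 * g) × Fin m) ℚ :=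
  blockDiagonal fun i' => if i' = i then H else 0

/-- the form of the product in terms of the factors -/
noncomputable def Tm (A : AbVar g') (H : Matrix (Fin (2 * g)) (Fin (2 * g)) ℚ) (R : Matrix (Fin (2 * g) × Fin m) (Fin (2 * g')) ℚ) (i : Fin m) :
    Matrix (Fin (2 * g) × Fin m) (Fin (2 * g) × Fin m) ℚ := Hm H i * (R * EM A * Rᵀ)⁻¹

theorem PD.W_det (h : PD K A H P jj R R' U U' b₁) : IsUnit (R * EM A * Rᵀ).det := by
  have hE := EM_det A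
  have h1 : (R * EM A * Rᵀ) * (R'ᵀ * (EM A)⁻¹ * R') = 1 := by
    have e1 : Rᵀ * R'ᵀ = 1 := by rw [← transpose_mul, h.md.r2, transpose_one]
    calc (R * EM A * Rᵀ) * (R'ᵀ * (EM A)⁻¹ * R') = R * EM A * (Rᵀ * R'ᵀ) * (EM A)⁻¹ * R' := by simp only [Matrix.mul_assoc]
      _ = R * (EM A * (EM A)⁻¹) * R' := by
        rw [e1, Matrix.mul_one]
        simp only [Matrix.mul_assoc]
      _ = 1 := by rw [Matrix.mul_nonsing_inv _ hE, Matrix.mul_one, h.md.r1]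
  exact (Matrix.isUnit_iff_isUnit_det _).1 (IsUnit.of_mul_eq_one _ h1)

theorem PD.Tm_mul (h : PD K A H P jj R R' U U' b₁) (i : Fin m) : Tm A H R i * (R * EM A * Rᵀ) = Hm H i := by
  unfold Tm
  rw [Matrix.mul_assoc, Matrix.nonsing_inv_mul _ h.W_det, Matrix.mul_one]

theorem alg_bdg {f : Fin m → Matrix (Fin (2 * g)) (Fin (2 * g)) ℂ} (hf : ∀ k a c, IsAlgebraic ℚ (f k a c)) :
    ∀ p q, IsAlgebraic ℚ ((blockDiagonal f : Matrix (Fin (2 * g) × Fin m) (Fin (2 * g) × Fin m) ℂ) p q) := by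
  intro p q
  rw [blockDiagonal_apply]
  split_ifs
  · exact hf _ _ _
  · exact isAlgebraic_zero

theorem tr_alg {α β : Type} {X : Matrix α β ℂ} (hX : ∀ i j, IsAlgebraic ℚ (X i j)) : ∀ i j, IsAlgebraic ℚ (Xᵀ i j) :=
  fun i j => hX j i

/-- the forms of the factors give endomorphisms -/
theorem PD.form_EA (h : PD K A H P jj R R' U U' b₁) (i : Fin m) : vl A (R' * Tm A H R i * R) ∈ A.EA := by
  obtain ⟨Ω, hΩ, hleg⟩ := PA_leg A
  obtain ⟨B, q, hB, hq, hPB⟩ := h.leg (jj i)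
  have hb : b₁ * b₁⁻¹ = 1 := Matrix.mul_nonsing_inv _ h.b1
  have hb' : b₁⁻¹ * b₁ = 1 := Matrix.nonsing_inv_mul _ h.b1
  set c : Matrix (Fin (2 * g) × Fin m) (Fin (2 * g')) ℂ := U' * b₁⁻¹ with hc
  have hca : ∀ a b, IsAlgebraic ℚ (c a b) := mul_alg (fun a b => h.alg _ (h.md.uK' a b)) (inv_alg h.b1a)
  have h1 : PA A = rc R' * bd jj P * c := by
    rw [hc, ← Matrix.mul_assoc, ← h.md.a0, Matrix.mul_assoc, hb, Matrix.mul_one]
  have h2 : rc R * PA A = bd jj P * c := by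
    conv_lhs => rw [h1]
    calc rc R * (rc R' * bd jj P * c) = (rc R * rc R') * bd jj P * c := by simp only [Matrix.mul_assoc]
      _ = _ := by rw [h.md.c1, Matrix.one_mul]
  have h3 : PA A * b₁ * U = rc R' * bd jj P := by
    rw [h.md.a0, Matrix.mul_assoc, h.md.u2, Matrix.mul_one]
  set E₀ := c * Ω * cᵀ with hE₀
  have hE₀a : ∀ a b, IsAlgebraic ℚ (E₀ a b) := mul_alg (mul_alg hca hΩ) (tr_alg hca)
  have hW : (tau : ℂ) • rc (R * EM A * Rᵀ) = bd jj P * E₀ * (bd jj P)ᵀ := by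
    have e1 : rc Rᵀ = (rc R)ᵀ := rfl
    rw [rc_mul, rc_mul, e1, ← Matrix.smul_mul, ← Matrix.mul_smul, ← hleg]
    calc rc R * (PA A * Ω * (PA A)ᵀ) * (rc R)ᵀ = (rc R * PA A) * Ω * (rc R * PA A)ᵀ := by
          rw [transpose_mul]
          simp only [Matrix.mul_assoc]
      _ = _ := by
        rw [h2, transpose_mul, hE₀]
        simp only [Matrix.mul_assoc]
  have hPd : IsUnit (bd jj P).det := by
    refine (Matrix.isUnit_iff_isUnit_det _).1 (IsUnit.of_mul_eq_one (bd jj fun j => (P j)⁻¹) ?_)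
    rw [bd_mul]
    have : (fun j => P j * (P j)⁻¹) = fun _ => 1 := funext fun j => Matrix.mul_nonsing_inv _ (h.md.pu j)
    rw [this, bd_one]
  have hE₀d : IsUnit E₀.det := by
    have e1 : IsUnit ((tau : ℂ) • rc (R * EM A * Rᵀ)).det := by
      rw [Matrix.det_smul]
      refine IsUnit.mul (IsUnit.pow _ (isUnit_iff_ne_zero.2 Pool.Agent.Y102.AbVar.tau_ne)) ?_
      have e2 : (rc (R * EM A * Rᵀ)) = (Rat.castHom ℂ).mapMatrix (R * EM A * Rᵀ) := rfl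
      rw [e2, ← RingHom.map_det]
      exact h.W_det.map _
    rw [hW, Matrix.det_mul, Matrix.det_mul] at e1
    exact isUnit_of_mul_isUnit_right (isUnit_of_mul_isUnit_left e1)
  set Bi : Matrix (Fin (2 * g) × Fin m) (Fin (2 * g) × Fin m) ℂ := blockDiagonal fun i' => if i' = i then B else 0 with hBi
  have hBia : ∀ a b, IsAlgebraic ℚ (Bi a b) := alg_bdg fun k a b => by
    by_cases hk : k = i
    · rw [if_pos hk]
      exact hB a b
    · rw [if_neg hk]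
      exact isAlgebraic_zero
  have hHi : bd jj P * Bi * (bd jj P)ᵀ = (tau * q : ℂ) • rc (Hm H i) := by
    have e1 : rc (Hm H i) = blockDiagonal fun i' => if i' = i then rc H else 0 := by
      unfold Hm rc
      rw [blockDiagonal_map _ _ Rat.cast_zero]
      congr 1
      funext k
      by_cases hk : k = i
      · rw [if_pos hk, if_pos hk]
      · rw [if_neg hk, if_neg hk]
        ext a b
        exact Rat.cast_zero
    rw [e1, hBi]
    unfold bd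
    rw [blockDiagonal_transpose, ← blockDiagonal_mul, ← blockDiagonal_mul, ← blockDiagonal_smul]
    congr 1
    funext k
    by_cases hk : k = i
    · subst hk
      show P (jj k) * (if k = k then B else 0) * (P (jj k))ᵀ = (tau * q : ℂ) • (if k = k then rc H else 0)
      rw [if_pos rfl, if_pos rfl, hPB]
    · show P (jj k) * (if k = i then B else 0) * (P (jj k))ᵀ = (tau * q : ℂ) • (if k = i then rc H else 0)
      rw [if_neg hk, if_neg hk, Matrix.mul_zero, Matrix.zero_mul, smul_zero]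
  have hq' : ((q : ℚ) : ℂ) ≠ 0 := Rat.cast_ne_zero.2 hq
  -- the main identity
  have hmain : rc (Tm A H R i) * bd jj P = bd jj P * ((q : ℂ)⁻¹ • (Bi * E₀⁻¹)) := by
    have e1 : rc (Tm A H R i) * bd jj P * E₀ * (bd jj P)ᵀ = (q : ℂ)⁻¹ • (bd jj P * Bi) * (bd jj P)ᵀ := by
      calc rc (Tm A H R i) * bd jj P * E₀ * (bd jj P)ᵀ = rc (Tm A H R i) * (bd jj P * E₀ * (bd jj P)ᵀ) := by
            simp only [Matrix.mul_assoc]
        _ = (tau : ℂ) • rc (Hm H i) := by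
          rw [← hW, Matrix.mul_smul, ← rc_mul, h.Tm_mul]
        _ = (q : ℂ)⁻¹ • ((tau * q : ℂ) • rc (Hm H i)) := by
          rw [smul_smul]
          congr 1
          field_simp
        _ = _ := by rw [← hHi, Matrix.smul_mul]
    have hPt : (bd jj P)ᵀ * ((bd jj P)ᵀ)⁻¹ = 1 := Matrix.mul_nonsing_inv _ (by rwa [Matrix.det_transpose])
    have e2 : rc (Tm A H R i) * bd jj P * E₀ = (q : ℂ)⁻¹ • (bd jj P * Bi) := by
      have e3 := congrArg (fun X => X * ((bd jj P)ᵀ)⁻¹) e1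
      simp only [Matrix.mul_assoc, hPt, Matrix.mul_one, Matrix.smul_mul] at e3
      rw [Matrix.mul_assoc]
      exact e3
    calc rc (Tm A H R i) * bd jj P = rc (Tm A H R i) * bd jj P * E₀ * E₀⁻¹ := by
          rw [Matrix.mul_assoc _ E₀, Matrix.mul_nonsing_inv _ hE₀d, Matrix.mul_one]
      _ = _ := by rw [e2, Matrix.smul_mul, Matrix.mul_smul, Matrix.mul_assoc]
  refine EA_of (bb := b₁ * U * ((q : ℂ)⁻¹ • (Bi * E₀⁻¹)) * c)
    (mul_alg (mul_alg (mul_alg h.b1a fun a b => h.alg _ (h.md.uK a b)) (mul_alg_rc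
      (IsAlgebraic.inv (isAlgebraic_algebraMap (A := ℂ) q)) (mul_alg hBia (inv_alg hE₀a)))) hca) ?_
  calc rc (R' * Tm A H R i * R) * PA A = rc R' * rc (Tm A H R i) * (rc R * PA A) := by
        rw [rc_mul, rc_mul, Matrix.mul_assoc]
    _ = rc R' * (rc (Tm A H R i) * bd jj P) * c := by
      rw [h2]
      simp only [Matrix.mul_assoc]
    _ = (rc R' * bd jj P) * ((q : ℂ)⁻¹ • (Bi * E₀⁻¹)) * c := by
      rw [hmain]
      simp only [Matrix.mul_assoc]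
    _ = _ := by
      rw [← h3]
      simp only [Matrix.mul_assoc]

/-- **the Lie algebra of the Hodge group** -/
theorem PD.NA_form (h : PD K A H P jj R R' U U' b₁) {X : Module.End ℚ A.H1} (hX : X ∈ A.NA) :
    ∃ x : Fin N → Matrix (Fin (2 * g)) (Fin (2 * g)) ℂ, (∀ j, x j ∈ spS (cm H⁻¹)) ∧ rc R * mt X * rc R' = bd jj x := by
  obtain ⟨x, hx, hx0⟩ := bd_of_comm (jj := jj) (Y := R * rm X * R') fun i i' hi =>
    conj_comm h.md.r1 (comm_rm (A.NA_comm hX (h.unit_EA hi)))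
  refine ⟨fun j => cm (x j), fun j => ?_, ?_⟩
  · -- the symplectic condition
    have hs := skew_rm (A.NA_skew hX)
    have h1 : (R * rm X * R') * (R * EM A * Rᵀ) + (R * EM A * Rᵀ) * (R * rm X * R')ᵀ = 0 := by
      have e1 : (R * rm X * R') * (R * EM A * Rᵀ) = R * (rm X * EM A) * Rᵀ := by
        calc (R * rm X * R') * (R * EM A * Rᵀ) = R * rm X * (R' * R) * EM A * Rᵀ := by simp only [Matrix.mul_assoc]
          _ = _ := by
            rw [h.md.r2, Matrix.mul_one]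
            simp only [Matrix.mul_assoc]
      have e2 : (R * EM A * Rᵀ) * (R * rm X * R')ᵀ = R * (EM A * (rm X)ᵀ) * Rᵀ := by
        rw [transpose_mul, transpose_mul]
        calc (R * EM A * Rᵀ) * (R'ᵀ * ((rm X)ᵀ * Rᵀ)) = R * EM A * (Rᵀ * R'ᵀ) * (rm X)ᵀ * Rᵀ := by
              simp only [Matrix.mul_assoc]
          _ = _ := by
            rw [← transpose_mul, h.md.r2, transpose_one, Matrix.mul_one]
            simp only [Matrix.mul_assoc]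
      rw [e1, e2, ← Matrix.add_mul, ← Matrix.mul_add, hs, Matrix.mul_zero, Matrix.zero_mul]
    by_cases hj : ∃ i, jj i = j
    · obtain ⟨i, rfl⟩ := hj
      have hcomm := conj_comm h.md.r1 (comm_rm (A.NA_comm hX (h.form_EA i)))
      have h2 : (R * rm X * R') * Hm H i + Hm H i * (R * rm X * R')ᵀ = 0 := by
        rw [← h.Tm_mul i]
        calc (R * rm X * R') * (Tm A H R i * (R * EM A * Rᵀ)) + Tm A H R i * (R * EM A * Rᵀ) * (R * rm X * R')ᵀ =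
            ((R * rm X * R') * Tm A H R i) * (R * EM A * Rᵀ) + Tm A H R i * ((R * EM A * Rᵀ) * (R * rm X * R')ᵀ) := by
              simp only [Matrix.mul_assoc]
          _ = Tm A H R i * ((R * rm X * R') * (R * EM A * Rᵀ) + (R * EM A * Rᵀ) * (R * rm X * R')ᵀ) := by
            rw [← hcomm, Matrix.mul_add]
            simp only [Matrix.mul_assoc]
          _ = 0 := by rw [h1, Matrix.mul_zero]
      rw [hx] at h2
      have h3 : x (jj i) * H + H * (x (jj i))ᵀ = 0 := by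
        unfold bd Hm at h2
        rw [blockDiagonal_transpose, ← blockDiagonal_mul, ← blockDiagonal_mul, ← blockDiagonal_add] at h2
        ext a c
        have h3 := congrFun (congrFun h2 (a, i)) (c, i)
        rw [blockDiagonal_apply_eq] at h3
        have h4 : ((fun k => x (jj k) * (if k = i then H else 0)) + fun k => (if k = i then H else 0) * (x (jj k))ᵀ) i =
            x (jj i) * H + H * (x (jj i))ᵀ := by
          show x (jj i) * (if i = i then H else 0) + (if i = i then H else 0) * (x (jj i))ᵀ = _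
          rw [if_pos rfl]
        rw [← h4]
        exact h3
      have hHH : H * H⁻¹ = 1 := Matrix.mul_nonsing_inv _ h.det
      have hHH' : H⁻¹ * H = 1 := Matrix.nonsing_inv_mul _ h.det
      have h4 : (x (jj i))ᵀ * H⁻¹ + H⁻¹ * x (jj i) = 0 := by
        calc (x (jj i))ᵀ * H⁻¹ + H⁻¹ * x (jj i) = (H⁻¹ * H) * (x (jj i))ᵀ * H⁻¹ + H⁻¹ * x (jj i) * (H * H⁻¹) := by
              rw [hHH, hHH', Matrix.one_mul, Matrix.mul_one]
          _ = H⁻¹ * (x (jj i) * H + H * (x (jj i))ᵀ) * H⁻¹ := by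
            rw [Matrix.mul_add, Matrix.add_mul, add_comm]
            simp only [Matrix.mul_assoc]
          _ = 0 := by rw [h3, Matrix.mul_zero, Matrix.zero_mul]
      rw [mem_spS]
      have h5 : (cm (x (jj i)))ᵀ * cm H⁻¹ + cm H⁻¹ * cm (x (jj i)) = cm ((x (jj i))ᵀ * H⁻¹ + H⁻¹ * x (jj i)) := by
        rw [Pool.Agent.Y119.HY.cm_add, cm_mul, cm_mul, cm_transpose]
      rw [h5, h4]
      exact Pool.Agent.Y119.HY.cm_zero
    · show cm (x j) ∈ spS (cm H⁻¹)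
      rw [hx0 j hj]
      have h6 : cm (0 : Matrix (Fin (2 * g)) (Fin (2 * g)) ℚ) = 0 := Pool.Agent.Y119.HY.cm_zero
      rw [h6]
      exact Submodule.zero_mem _
  · rw [mt_rm, ← rc_mul, ← rc_mul, hx]
    exact blockDiagonal_map _ _ Rat.cast_zero

end

/-! ### lifts -/

section lift
variable {n N m : ℕ} {α J R₁ : Type} [Fintype α] [DecidableEq α] [Fintype J] [DecidableEq J] [Fintype R₁] [DecidableEq R₁]

theorem Tot_inj {r₀ : ℕ} {e e' : Matrix (Fin r₀) (Fin r₀) ℂ} {x x' : Fin N → Matrix (Fin n) (Fin n) ℂ}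
    (h : Tot e x = Tot e' x') : e = e' ∧ x = x' := by
  unfold Pool.Agent.Helper880_R3.Tot at h
  obtain ⟨h1, -, -, h2⟩ := fromBlocks_inj.1 h
  exact ⟨h1, blockDiagonal_injective h2⟩

theorem sum_ib (x : Fin N → Matrix (Fin n) (Fin n) ℂ) : Tot (0 : Matrix (Fin 1) (Fin 1) ℂ) x = ∑ i, ib (r₀ := 1) i (x i) := by
  have h1 : ∀ s : Finset (Fin N), ∑ i ∈ s, ib (r₀ := 1) i (x i) = Tot 0 (fun j => if j ∈ s then x j else 0) := by
    classical
    intro s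
    induction s using Finset.induction_on with
    | empty =>
      rw [Finset.sum_empty, ← Tot_zero]
      congr 1
    | insert a s ha ih =>
      rw [Finset.sum_insert ha, ih, ib_Tot, Tot_add, add_zero]
      congr 1
      funext j
      by_cases h : j = a
      · subst h
        rw [Pi.single_eq_same, if_neg ha, if_pos (Finset.mem_insert_self _ _), add_zero]
      · rw [Pi.single_eq_of_ne h, zero_add]
        by_cases hj : j ∈ s
        · rw [if_pos hj, if_pos (Finset.mem_insert_of_mem hj)]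
        · rw [if_neg hj, if_neg (fun hcon => (Finset.mem_insert.1 hcon).elim h hj)]
  rw [h1]
  congr 1
  funext j
  rw [if_pos (Finset.mem_univ _)]

theorem exists_lift_of {jj : Fin m → Fin N} {R : Matrix (Fin n × Fin m) α ℚ} {R' : Matrix α (Fin n × Fin m) ℚ}
    {Λ : Submodule ℂ (Matrix ((α ⊕ J) ⊕ R₁) ((α ⊕ J) ⊕ R₁) ℂ)} {𝔰 : Submodule ℂ (Matrix (Fin n) (Fin n) ℂ)}
    (h : ∀ i, ∀ X ∈ 𝔰, ib (r₀ := 1) i X ∈ gr jj R R' Λ) {x : Fin N → Matrix (Fin n) (Fin n) ℂ} (hx : ∀ j, x j ∈ 𝔰) :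
    ∃ (a : Matrix α α ℂ) (z : Matrix α J ℂ) (y : Matrix R₁ α ℂ) (w : Matrix R₁ J ℂ), bl a z 0 y w 0 ∈ Λ ∧
      rc R * a * rc R' = bd jj x := by
  have h1 : Tot (0 : Matrix (Fin 1) (Fin 1) ℂ) x ∈ gr jj R R' Λ := by
    rw [sum_ib]
    exact Submodule.sum_mem _ fun i _ => h i _ (hx i)
  obtain ⟨e, x', a, z, y, w, h2, h3, h4⟩ := h1
  obtain ⟨h5, rfl⟩ := Tot_inj h4
  have h6 : e = 0 := by
    have h7 := congrFun (congrFun h5 0) 0
    rw [Matrix.smul_apply, Matrix.one_apply_eq, smul_eq_mul, mul_one] at h7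
    exact h7.symm
  rw [h6, zero_smul] at h2
  exact ⟨a, z, y, w, h2, h3⟩

/-- **homotheties** -/
theorem split_of {T : Set (Matrix ((α ⊕ J) ⊕ R₁) ((α ⊕ J) ⊕ R₁) ℂ)} {a : Matrix α α ℂ} {z : Matrix α J ℂ}
    {y : Matrix R₁ α ℂ} {w s : Matrix R₁ J ℂ} (h : fl (bl a z 0 y w 0) ∈ LL T)
    (hh : fl (bl ((1 / 2 : ℂ) • (1 : Matrix α α ℂ)) 0 1 0 s 0) ∈ LL T) : fl (bl a (0 : Matrix α J ℂ) 0 (0 : Matrix R₁ α ℂ) 0 0) ∈ LL T := by
  have h2 := Pool.Agent.X306.RL.LL_br h hh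
  have e2 : bl a z 0 y w (0 : Matrix R₁ R₁ ℂ) * bl ((1 / 2 : ℂ) • (1 : Matrix α α ℂ)) 0 1 0 s 0 -
      bl ((1 / 2 : ℂ) • (1 : Matrix α α ℂ)) 0 1 0 s 0 * bl a z 0 y w 0 = bl 0 ((1 / 2 : ℂ) • z) 0 ((1 / 2 : ℂ) • y) w 0 := by
    rw [bl_mul, bl_mul, bl_sub]
    congr 1
    · simp
    · simp only [Matrix.mul_zero, Matrix.mul_one, zero_add, Matrix.smul_mul, Matrix.one_mul, add_zero]
      module
    · simp
    · simp
    · simp
    · simp
  rw [e2] at h2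
  have h3 := Pool.Agent.X306.RL.LL_br h2 hh
  have e3 : bl (0 : Matrix α α ℂ) ((1 / 2 : ℂ) • z) 0 ((1 / 2 : ℂ) • y) w (0 : Matrix R₁ R₁ ℂ) *
      bl ((1 / 2 : ℂ) • (1 : Matrix α α ℂ)) 0 1 0 s 0 - bl ((1 / 2 : ℂ) • (1 : Matrix α α ℂ)) 0 1 0 s 0 *
      bl 0 ((1 / 2 : ℂ) • z) 0 ((1 / 2 : ℂ) • y) w 0 = bl 0 ((1 / 4 : ℂ) • z) 0 ((1 / 4 : ℂ) • y) w 0 := by
    rw [bl_mul, bl_mul, bl_sub]
    congr 1
    · simp
    · simp only [Matrix.mul_zero, Matrix.mul_one, zero_add, Matrix.smul_mul, Matrix.one_mul, add_zero]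
      module
    · simp
    · simp only [Matrix.mul_zero, Matrix.zero_mul, add_zero, Matrix.mul_smul, Matrix.mul_one]
      module
    · simp
    · simp
  rw [e3] at h3
  have h4 := (LL T).add_mem ((LL T).sub_mem h ((LL T).smul_mem (3 : ℂ) h2)) ((LL T).smul_mem (2 : ℂ) h3)
  have e4 : bl a z 0 y w (0 : Matrix R₁ R₁ ℂ) - (3 : ℂ) • bl 0 ((1 / 2 : ℂ) • z) 0 ((1 / 2 : ℂ) • y) w 0 +
      (2 : ℂ) • bl 0 ((1 / 4 : ℂ) • z) 0 ((1 / 4 : ℂ) • y) w 0 = bl a 0 0 0 0 0 := by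
    rw [bl_smul, bl_smul, bl_sub, bl_add]
    congr 1
    · simp
    · module
    · simp
    · module
    · module
    · simp
  have h5 : fl (bl a z 0 y w (0 : Matrix R₁ R₁ ℂ) - (3 : ℂ) • bl 0 ((1 / 2 : ℂ) • z) 0 ((1 / 2 : ℂ) • y) w 0 +
      (2 : ℂ) • bl 0 ((1 / 4 : ℂ) • z) 0 ((1 / 4 : ℂ) • y) w 0) ∈ LL T := h4
  rw [e4] at h5
  exact h5

end lift

/-! ### the theorem -/

section main
variable {g g' N m : ℕ} {K : Subfield ℂ} {A : AbVar g'} {H : Matrix (Fin (2 * g)) (Fin (2 * g)) ℚ}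
    {P : Fin N → Matrix (Fin (2 * g)) (Fin (2 * g)) ℂ}
    {jj : Fin m → Fin N} {R : Matrix (Fin (2 * g) × Fin m) (Fin (2 * g')) ℚ} {R' : Matrix (Fin (2 * g')) (Fin (2 * g) × Fin m) ℚ}
    {U : Matrix (Fin (2 * g')) (Fin (2 * g) × Fin m) ℂ} {U' : Matrix (Fin (2 * g) × Fin m) (Fin (2 * g')) ℂ}
    {b₁ : Matrix (Fin (2 * g')) (Fin (2 * g')) ℂ}
    {R₁ J : Type} [Fintype R₁] [DecidableEq R₁] [Fintype J] [DecidableEq J]
    {u e : R₁ → Fin g' → ℂ} {q f : J → Fin g' → ℂ} {L : Matrix R₁ J ℂ} {F : IntermediateField ℚ ℂ}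
    {T : Set (Matrix ((Fin (2 * g') ⊕ J) ⊕ R₁) ((Fin (2 * g') ⊕ J) ⊕ R₁) ℂ)}

theorem sm_bl (x : LS (Fin (2 * g')) R₁ J) (k : ℂ) : sm x k = bl x.1 x.2.1 (x.2.2.1 • 1) x.2.2.2.1 x.2.2.2.2 (k • 1) := rfl

/-- the integral matrices of endomorphisms -/
theorem EndM_EA (hE : EndAlg A) {M : Matrix (Fin (2 * g')) (Fin (2 * g')) ℤ} (hM : EndM A M) : vl A (mQ M) ∈ A.EA := by
  obtain ⟨b, hb, h1⟩ := hE M hM
  refine EA_of hb ?_
  rw [← h1]
  congr 1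

/-- **the Lie algebra of the Hodge group is in the Lie algebra of the torsor** -/
theorem NA_L0 (h : PD K A H P jj R R' U U' b₁) (hT : IsSubtorsor QB T) (hG : GDef Pool.Agent.X306.EM.QQ T)
    (hc : sm (prS u e q f L A) 1 ∈ T) (hF : Fld A F) (hu : ∀ r, u r ∈ Pt A F) (hq : ∀ j, q j ∈ Pt A F) (hE : EndAlg A)
    (hN0 : RelN A u q (Nm A u e q f)) {Λ : Submodule ℂ (Matrix ((Fin (2 * g') ⊕ J) ⊕ R₁) ((Fin (2 * g') ⊕ J) ⊕ R₁) ℂ)}
    (hΛ : ∀ w ∈ Λ, fl w ∈ LL T)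
    (hfu : ∀ i, ∀ X ∈ spS (cm H⁻¹), ib (r₀ := 1) i X ∈ gr jj R R' Λ) : A.NA ≤ L0 (gR A u q T) := by
  intro X hX
  obtain ⟨x, hx, hXx⟩ := h.NA_form hX
  obtain ⟨a, z, y, w, h1, h2⟩ := exists_lift_of hfu hx
  have ha : a = mt X := by
    calc a = (rc R' * rc R) * a * (rc R' * rc R) := by rw [h.md.c2, Matrix.one_mul, Matrix.mul_one]
      _ = rc R' * (rc R * a * rc R') * rc R := by simp only [Matrix.mul_assoc]
      _ = rc R' * (rc R * mt X * rc R') * rc R := by rw [h2, hXx]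
      _ = (rc R' * rc R) * mt X * (rc R' * rc R) := by simp only [Matrix.mul_assoc]
      _ = _ := by rw [h.md.c2, Matrix.one_mul, Matrix.mul_one]
  subst ha
  obtain ⟨hsplit, s, hs⟩ := shapeO hT hG hc hF hu hq hE hN0
  have h3 := (mem_gN.1 (mem_gR.1 (half_mm hT hG hc hF hu hq hE hN0 hs 1)).1).2
  have h4 : sm (cS A ((((1 : ℚ) / 2) • (1 : Module.End ℚ (Fin (2 * g') → ℚ)), 0, 1, fun r j => 1 * s r j) :
      Pool.Agent.X306.AV.RS g' R₁ J)) 0 = bl ((1 / 2 : ℂ) • (1 : Matrix (Fin (2 * g')) (Fin (2 * g')) ℂ)) 0 1 0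
        (Matrix.of fun r j => ((1 * s r j : ℚ) : ℂ)) 0 := by
    rw [cS_row0, sm_bl]
    have e1 : mt (((1 : ℚ) / 2) • (1 : Module.End ℚ (Fin (2 * g') → ℚ))) =
        (1 / 2 : ℂ) • (1 : Matrix (Fin (2 * g')) (Fin (2 * g')) ℂ) := by
      have e2 := mt_add_smul (0 : Module.End ℚ (Fin (2 * g') → ℚ)) (1 / 2)
      rw [zero_add] at e2
      rw [e2]
      have e3 : mt (0 : Module.End ℚ (Fin (2 * g') → ℚ)) = 0 := by
        ext i j
        exact Rat.cast_zero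
      rw [e3, zero_add]
      congr 1
      push_cast
      rfl
    show bl _ 0 (((1 : ℚ) : ℂ) • 1) 0 _ ((0 : ℂ) • 1) = _
    rw [e1, Rat.cast_one, one_smul, zero_smul]
  rw [h4] at h3
  have h5 := split_of (hΛ _ h1) h3
  refine mem_L0.2 (mem_gR.2 ⟨mem_gN.2 ⟨?_, ?_⟩, ?_, ?_⟩)
  · intro v w
    show A.om (X v) w + A.om v (X w) = 0 * A.om v w
    rw [zero_mul]
    exact A.NA_skew hX v w
  · have h6 : sm (cS A ((X, 0, 0, 0) : Pool.Agent.X306.AV.RS g' R₁ J)) 0 = bl (mt X) 0 0 0 0 0 := by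
      have h7 := cS_row0 (A := A) (R := R₁) (J := J) X 0 0
      rw [h7, sm_bl]
      show bl _ 0 (((0 : ℚ) : ℂ) • 1) 0 _ ((0 : ℂ) • 1) = _
      rw [Rat.cast_zero, zero_smul, zero_smul]
      congr 1
      ext r j
      exact Rat.cast_zero
    rw [h6]
    exact h5
  · intro M hM v
    have h6 := congrArg (fun T : Module.End ℚ A.H1 => T v) (A.NA_comm hX (EndM_EA hE hM))
    exact h6
  · intro Q M _ _
    refine Finset.sum_eq_zero fun r _ => ?_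
    exact Matrix.zero_vecMul _

/-- the torsor on the side of the theta functions -/
theorem tb_mem {b : Matrix ((Fin (2 * g') ⊕ J) ⊕ R₁) ((Fin (2 * g') ⊕ J) ⊕ R₁) ℂ}
    {S : Set (Matrix ((Fin (2 * g') ⊕ J) ⊕ R₁) ((Fin (2 * g') ⊕ J) ⊕ R₁) ℂ)} {x : Matrix ((Fin (2 * g') ⊕ J) ⊕ R₁) ((Fin (2 * g') ⊕ J) ⊕ R₁) ℂ}
    (h : x * b ∈ S) : x ∈ Tb S b := h

/-- **1-motives over products of fibres** -/
theorem om_main (h : PD K A H P jj R R' U U' b₁)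
    {S : Set (Matrix ((Fin (2 * g') ⊕ J) ⊕ R₁) ((Fin (2 * g') ⊕ J) ⊕ R₁) ℂ)} (hS : IsSubtorsor K S)
    (hG : GDef Pool.Agent.X306.EM.QQ S)
    {b₂ : Matrix (Fin (2 * g')) J ℂ} {b₃ : Matrix J J ℂ} {b₄ : Matrix R₁ (Fin (2 * g')) ℂ} {b₅ : Matrix R₁ J ℂ}
    {b₆ : Matrix R₁ R₁ ℂ} (hb : IsUnit (bl b₁ b₂ b₃ b₄ b₅ b₆).det)
    (hba : ∀ i j, IsAlgebraic ℚ (bl b₁ b₂ b₃ b₄ b₅ b₆ i j))
    (hc : sm (prS u e q f L A) 1 * bl b₁ b₂ b₃ b₄ b₅ b₆ ∈ S) (hF : Fld A F) (hu : ∀ r, u r ∈ Pt A F)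
    (hq : ∀ j, q j ∈ Pt A F) (hE : EndAlg A) (hN0 : RelN A u q (Nm A u e q f)) (hH : Hᵀ = -H) (hg : 0 < g)
    (hp : ∀ j, ∃ (A : AbVar g) (R : Matrix (Fin (2 * g)) (Fin (2 * g)) ℚ), Pres A H (P j) R)
    (hV : ∀ V : Submodule ℂ (Matrix (Ix 1 (2 * g) N) (Ix 1 (2 * g) N) ℂ),
      Sp K (cm H⁻¹) (Tot ((tau : ℂ) • (1 : Matrix (Fin 1) (Fin 1) ℂ)) P) V → ∀ i, ∀ X ∈ spS (cm H⁻¹), ib (r₀ := 1) i X ∈ V) :
    A.NA ≤ L0 (gR A u q (Tb S (bl b₁ b₂ b₃ b₄ b₅ b₆))) := by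
  choose A' R₂ hp using hp
  have hKQ : K ≤ QB := fun x hx => mem_QB.2 (h.alg x hx)
  have hT : IsSubtorsor QB (Tb S (bl b₁ b₂ b₃ b₄ b₅ b₆)) := Tb_tor hS hKQ hb fun i j => mem_QB.2 (hba i j)
  have hc' := hc
  rw [sm_bl, bl_mul] at hc'
  have hb3 : ∀ i j, IsAlgebraic ℚ (b₃ i j) := fun i j => hba (Sum.inl (Sum.inr i)) (Sum.inl (Sum.inr j))
  have hb6 : ∀ i j, IsAlgebraic ℚ (b₆ i j) := fun i j => hba (Sum.inr i) (Sum.inr j)
  have hlev := gr_lev (A := A') (R₂ := R₂) h.alg hS (ratGrp_of hG) hc' h.md (b₃ := b₃) (by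
    show ((2 * Real.pi * Complex.I : ℂ) • (1 : Matrix J J ℂ)) * b₃ = _
    rw [Matrix.smul_mul, Matrix.one_mul]) hb3 (fun i j => by
      rw [one_smul, Matrix.one_mul]
      exact hb6 i j) hp h.det
  exact NA_L0 h hT (Tb_gdef hS hb hG) hc hF hu hq hE hN0 (Λ := Lm S) (fun w hw => Tb_LL hb hw) (hV _ (hlev.sp hH hg))

/-- **1-motives over products of fibres**: the exponentials -/
theorem om_exp (h : PD K A H P jj R R' U U' b₁)
    {S : Set (Matrix ((Fin (2 * g') ⊕ J) ⊕ R₁) ((Fin (2 * g') ⊕ J) ⊕ R₁) ℂ)} (hS : IsSubtorsor K S)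
    (hG : GDef Pool.Agent.X306.EM.QQ S)
    {b₂ : Matrix (Fin (2 * g')) J ℂ} {b₃ : Matrix J J ℂ} {b₄ : Matrix R₁ (Fin (2 * g')) ℂ} {b₅ : Matrix R₁ J ℂ}
    {b₆ : Matrix R₁ R₁ ℂ} (hb : IsUnit (bl b₁ b₂ b₃ b₄ b₅ b₆).det)
    (hba : ∀ i j, IsAlgebraic ℚ (bl b₁ b₂ b₃ b₄ b₅ b₆ i j))
    (hc : sm (prS u e q f L A) 1 * bl b₁ b₂ b₃ b₄ b₅ b₆ ∈ S) (hF : Fld A F) (hu : ∀ r, u r ∈ Pt A F)
    (hq : ∀ j, q j ∈ Pt A F) (hE : EndAlg A) (hN0 : RelN A u q (Nm A u e q f)) (hH : Hᵀ = -H) (hg : 0 < g)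
    (hp : ∀ j, ∃ (A : AbVar g) (R : Matrix (Fin (2 * g)) (Fin (2 * g)) ℚ), Pres A H (P j) R)
    (hV : ∀ V : Submodule ℂ (Matrix (Ix 1 (2 * g) N) (Ix 1 (2 * g) N) ℂ),
      Sp K (cm H⁻¹) (Tot ((tau : ℂ) • (1 : Matrix (Fin 1) (Fin 1) ℂ)) P) V → ∀ i, ∀ X ∈ spS (cm H⁻¹), ib (r₀ := 1) i X ∈ V)
    {X : Matrix (Fin (2 * g')) (Fin (2 * g')) ℂ} {μ : ℂ} {N' : R₁ ⊕ J → Fin (2 * g') → ℂ} {w : Matrix R₁ J ℂ}
    (hX : X - (μ / 2) • 1 ∈ Submodule.span ℂ {Y | ∃ P ∈ A.NA, Y = mt P}) (hN : RelN A u q N')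
    (hw : ∀ χ : Matrix R₁ J ℤ, (∀ c ∈ Pool.Agent.X306.AV.CmS A u q, ∑ r, ∑ j, (χ r j : ℂ) * c r j = 0) → ∀ n : ℤ,
      IsAlgebraic ℚ (∑ r, ∑ j, (χ r j : ℂ) * Pool.Agent.X306.AV.ell A u e q f L r j -
        (n : ℂ) * (2 * Real.pi * Complex.I)) → ∑ r, ∑ j, (χ r j : ℂ) * w r j = (n : ℂ) * μ)
    {x : Matrix ((Fin (2 * g') ⊕ J) ⊕ R₁) ((Fin (2 * g') ⊕ J) ⊕ R₁) ℂ} (hx : x ∈ S) :
    NormedSpace.exp (sm ((X, Pool.Agent.X306.AV.tz A (Pool.Agent.X306.AV.zM N'), μ, Pool.Agent.X306.AV.yM N', w) :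
      LS (Fin (2 * g')) R₁ J) 0) * x ∈ S := by
  have hKQ : K ≤ QB := fun x hx => mem_QB.2 (h.alg x hx)
  have hT : IsSubtorsor QB (Tb S (bl b₁ b₂ b₃ b₄ b₅ b₆)) := Tb_tor hS hKQ hb fun i j => mem_QB.2 (hba i j)
  have h1 := om_main h hS hG hb hba hc hF hu hq hE hN0 hH hg hp hV
  have hx' : x * (bl b₁ b₂ b₃ b₄ b₅ b₆)⁻¹ ∈ Tb S (bl b₁ b₂ b₃ b₄ b₅ b₆) := by
    show x * (bl b₁ b₂ b₃ b₄ b₅ b₆)⁻¹ * bl b₁ b₂ b₃ b₄ b₅ b₆ ∈ S
    rwa [Matrix.mul_assoc, Matrix.nonsing_inv_mul _ hb, Matrix.mul_one]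
  have h2 := Pool.Agent.X306.AV.mainLie hT (Tb_gdef hS hb hG) hc hF hu hq hE hN0 h1 hX hN hw hx'
  have h3 : NormedSpace.exp (sm ((X, Pool.Agent.X306.AV.tz A (Pool.Agent.X306.AV.zM N'), μ, Pool.Agent.X306.AV.yM N', w) :
      LS (Fin (2 * g')) R₁ J) 0) * (x * (bl b₁ b₂ b₃ b₄ b₅ b₆)⁻¹) * bl b₁ b₂ b₃ b₄ b₅ b₆ ∈ S := h2
  rw [← Matrix.mul_assoc, Matrix.mul_assoc, Matrix.nonsing_inv_mul _ hb, Matrix.mul_one] at h3
  exact h3

end main

end Pool.Agent.H936.W
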