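import Pool.Agent.H936.W.Gr
import Pool.Graph.R_pool_sql_team_seeded_64922ed1.X306.AV.UC

/-!
# Change of the basis on the de Rham side
-/

set_option autoImplicit false
set_option linter.unusedSectionVars false
set_option linter.unusedVariables false
set_option maxHeartbeats 400000

open Matrix Module MvPolynomial

namespace Pool.Agent.H936.W

open Pool.Agent.Y123.ST (fl um LL LL_def RR RR_def logder_mem fl_um um_fl conj_mem conj_mem' cp sb mr mr_fl eval_cp dd_cp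
  exists_map Van)
open Pool.Agent.TH127.PT (IsSubtorsor)
open Pool.Agent.X306.RL (GDef)
open Pool.Agent.H936.SL

theorem cp_coeff {B : Type} [Fintype B] [DecidableEq B] {K : Subfield ℂ} {L : (B → ℂ) →ₗ[ℂ] (B → ℂ)}
    (hL : ∀ k b, L (Pi.single k 1) b ∈ K) {P : MvPolynomial B ℂ} (hP : ∀ m, P.coeff m ∈ K) : ∀ m, (cp L P).coeff m ∈ K := by
  obtain ⟨P0, rfl⟩ := exists_map P hP
  intro m
  have h1 : cp L (P0.map (algebraMap K ℂ)) =
      (bind₁ (fun b => ∑ k, C (⟨L (Pi.single k 1) b, hL k b⟩ : K) * X k) P0).map (algebraMap K ℂ) := by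
    unfold cp
    rw [map_bind₁]
    congr 2
    funext b
    unfold sb
    rw [map_sum]
    refine Finset.sum_congr rfl fun k _ => ?_
    rw [map_mul, map_C, map_X]
    rfl
  rw [h1, coeff_map]
  exact (coeff m _ : K).2

variable {B : Type} [Fintype B] [DecidableEq B]

theorem mr_single (b : Matrix B B ℂ) (k p : B × B) : mr b (Pi.single k 1) p = if p.1 = k.1 then b k.2 p.2 else 0 := by
  show (um (Pi.single k 1) * b) p.1 p.2 = _
  rw [Matrix.mul_apply]
  by_cases h : p.1 = k.1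
  · rw [if_pos h, Finset.sum_eq_single k.2]
    · have h1 : um (Pi.single k (1 : ℂ)) p.1 k.2 = 1 := by
        show (Pi.single k (1 : ℂ) : B × B → ℂ) (p.1, k.2) = 1
        rw [h]
        exact Pi.single_eq_same _ _
      rw [h1, one_mul]
    · intro l _ hl
      have h1 : um (Pi.single k (1 : ℂ)) p.1 l = 0 := by
        show (Pi.single k (1 : ℂ) : B × B → ℂ) (p.1, l) = 0
        refine Pi.single_eq_of_ne (fun h2 => hl ?_) _
        rw [← h2]
      rw [h1, zero_mul]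
    · intro h1
      exact absurd (Finset.mem_univ _) h1
  · rw [if_neg h]
    refine Finset.sum_eq_zero fun l _ => ?_
    have h1 : um (Pi.single k (1 : ℂ)) p.1 l = 0 := by
      show (Pi.single k (1 : ℂ) : B × B → ℂ) (p.1, l) = 0
      refine Pi.single_eq_of_ne (fun h2 => h ?_) _
      rw [← h2]
    rw [h1, zero_mul]

/-- the torsor in another basis of the de Rham realisation -/
def Tb (S : Set (Matrix B B ℂ)) (b : Matrix B B ℂ) : Set (Matrix B B ℂ) := {x | x * b ∈ S}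

variable {K K' : Subfield ℂ} {S : Set (Matrix B B ℂ)} {b : Matrix B B ℂ}

theorem Tb_tor (hS : IsSubtorsor K S) (hK : K ≤ K') (hb : IsUnit b.det) (hbK : ∀ i j, b i j ∈ K') :
    IsSubtorsor K' (Tb S b) where
  isUnit x hx := by
    have h1 := (Matrix.isUnit_iff_isUnit_det _).1 (hS.isUnit _ hx)
    rw [Matrix.det_mul] at h1
    exact (Matrix.isUnit_iff_isUnit_det _).2 (isUnit_of_mul_isUnit_left h1)
  torsor x hx y hy z hz := by
    show x * y⁻¹ * z * b ∈ S
    have h1 := hS.torsor _ hx _ hy _ hz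
    have h2 : x * b * (y * b)⁻¹ * (z * b) = x * y⁻¹ * z * b := by
      rw [Matrix.mul_inv_rev]
      calc x * b * (b⁻¹ * y⁻¹) * (z * b) = x * (b * b⁻¹) * y⁻¹ * z * b := by simp only [Matrix.mul_assoc]
        _ = _ := by rw [Matrix.mul_nonsing_inv _ hb, Matrix.mul_one]
    rwa [h2] at h1
  algebraic := by
    obtain ⟨I, hI1, hI2⟩ := hS.algebraic
    refine ⟨cp (mr b) '' I, ?_, fun x => ?_⟩
    · rintro _ ⟨p, hp, rfl⟩ m
      refine cp_coeff (fun k p => ?_) (fun m => hK (hI1 p hp m)) m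
      rw [mr_single]
      split_ifs
      · exact hbK _ _
      · exact K'.zero_mem
    · have h1 : ∀ p, eval (fun b' : B × B => x b'.1 b'.2) (cp (mr b) p) = eval (fun b' : B × B => (x * b) b'.1 b'.2) p :=
        fun p => eval_cp (mr b) p (fl x)
      show x * b ∈ S ↔ _
      rw [hI2]
      constructor
      · rintro ⟨h2, h3⟩
        refine ⟨?_, ?_⟩
        · have h4 := (Matrix.isUnit_iff_isUnit_det _).1 h2
          rw [Matrix.det_mul] at h4
          exact (Matrix.isUnit_iff_isUnit_det _).2 (isUnit_of_mul_isUnit_left h4)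
        · rintro _ ⟨p, hp, rfl⟩
          rw [h1]
          exact h3 p hp
      · rintro ⟨h2, h3⟩
        refine ⟨h2.mul ((Matrix.isUnit_iff_isUnit_det _).2 hb), fun p hp => ?_⟩
        rw [← h1]
        exact h3 _ ⟨p, hp, rfl⟩

theorem Tb_grp (hS : IsSubtorsor K S) (hb : IsUnit b.det) (g : Matrix B B ℂ) :
    (∃ x ∈ Tb S b, ∃ y ∈ Tb S b, g = x * y⁻¹) ↔ ∃ x ∈ S, ∃ y ∈ S, g = x * y⁻¹ := by
  have hbb : b * b⁻¹ = 1 := Matrix.mul_nonsing_inv _ hb
  have hbb' : b⁻¹ * b = 1 := Matrix.nonsing_inv_mul _ hb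
  constructor
  · rintro ⟨x, hx, y, hy, rfl⟩
    refine ⟨_, hx, _, hy, ?_⟩
    rw [Matrix.mul_inv_rev]
    calc x * y⁻¹ = x * (b * b⁻¹) * y⁻¹ := by rw [hbb, Matrix.mul_one]
      _ = _ := by simp only [Matrix.mul_assoc]
  · rintro ⟨x, hx, y, hy, rfl⟩
    have h1 : ∀ x : Matrix B B ℂ, x * b⁻¹ * b = x := fun x => by rw [Matrix.mul_assoc, hbb', Matrix.mul_one]
    refine ⟨x * b⁻¹, by show x * b⁻¹ * b ∈ S; rwa [h1], y * b⁻¹, by show y * b⁻¹ * b ∈ S; rwa [h1], ?_⟩
    have h2 : (y * b⁻¹)⁻¹ = b * y⁻¹ := by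
      refine Matrix.inv_eq_right_inv ?_
      calc y * b⁻¹ * (b * y⁻¹) = y * (b⁻¹ * b) * y⁻¹ := by simp only [Matrix.mul_assoc]
        _ = 1 := by rw [hbb', Matrix.mul_one, Matrix.mul_nonsing_inv _ ((Matrix.isUnit_iff_isUnit_det _).1 (hS.isUnit _ hy))]
    rw [h2]
    calc x * y⁻¹ = x * (b⁻¹ * b) * y⁻¹ := by rw [hbb', Matrix.mul_one]
      _ = _ := by simp only [Matrix.mul_assoc]

theorem Tb_gdef (hS : IsSubtorsor K S) (hb : IsUnit b.det) (hG : GDef K' S) : GDef K' (Tb S b) := by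
  obtain ⟨I, h1, h2⟩ := hG
  refine ⟨I, h1, fun g => ?_⟩
  rw [Tb_grp hS hb, h2]

theorem Tb_LL (hb : IsUnit b.det) {w : B × B → ℂ} (h : w ∈ LL S) : w ∈ LL (Tb S b) := by
  have hbb' : b⁻¹ * b = 1 := Matrix.nonsing_inv_mul _ hb
  have hbb : b * b⁻¹ = 1 := Matrix.mul_nonsing_inv _ hb
  intro P hP x hx
  have h1 : Van S (cp (mr b⁻¹) P) := by
    intro z hz
    rw [eval_cp, mr_fl]
    refine hP _ ?_
    show z * b⁻¹ * b ∈ S
    rwa [Matrix.mul_assoc, hbb', Matrix.mul_one]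
  have h2 := h _ h1 _ hx
  rw [dd_cp, mr_fl, mr_fl] at h2
  have h3 : ∀ x : Matrix B B ℂ, x * b * b⁻¹ = x := fun x => by rw [Matrix.mul_assoc, hbb, Matrix.mul_one]
  have h4 : um w * (x * b) * b⁻¹ = um w * x := by rw [← Matrix.mul_assoc, h3]
  rwa [h3, h4] at h2

/-- a group which is defined by polynomials with rational coefficients -/
theorem ratGrp_of (hG : GDef Pool.Agent.X306.EM.QQ S) : RatGrp S := by
  obtain ⟨I, h1, h2⟩ := hG
  intro σ x hx y hy
  have h3 := (h2 (x * y⁻¹)).1 ⟨x, hx, y, hy, rfl⟩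
  have h4 : IsUnit ((x * y⁻¹).map σ) ∧ ∀ p ∈ I, eval (fun b => ((x * y⁻¹).map σ) b.1 b.2) p = 0 := by
    refine ⟨h3.1.map (σ : ℂ →+* ℂ).mapMatrix, fun p hp => ?_⟩
    have h5 := Pool.Agent.Y123.ST.eval_aut' σ p (fun b : B × B => (x * y⁻¹) b.1 b.2)
    rw [h3.2 p hp, map_zero] at h5
    have h6 : p.map (σ : ℂ →+* ℂ) = p := by
      ext m
      rw [coeff_map]
      obtain ⟨q, hq⟩ := Pool.Agent.X306.EM.mem_QQ.1 (h1 p hp m)
      rw [← hq]
      exact map_ratCast σ q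
    rw [h6] at h5
    exact h5.symm
  obtain ⟨x', hx', y', hy', h5⟩ := (h2 _).2 h4
  exact ⟨x', hx', y', hy', h5⟩

end Pool.Agent.H936.W
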