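import Pool.Agent.H936.W.Lev

/-!
# Sequences of Lie algebras over number fields: the core theorems
-/

set_option autoImplicit false
set_option linter.unusedSectionVars false
set_option linter.unusedVariables false
set_option maxHeartbeats 400000

open Matrix Module Filter

namespace Pool.Agent.H936.W

open Pool.Agent.Helper880_LF (spS mem_spS comm_mem)
open Pool.Agent.Helper880_LF.NB (gm gm_mul gm_add gm_sub gm_smul gm_zero gm_one gm_ev gm_eq gm_surj gm_neg gm_unit gm_apply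
  gm_transpose gm_kt kt kt_apply dm dm_mul dm_smul Lst mem_Lst)
open Pool.Agent.Helper880_R3 (Ix ib Tot gm_ib)
open Pool.Agent.Y118.UL (mk mk_eq mk_eq_zero mk_ne_zero mk_surj U)
open Pool.Agent.R917 (QQ)
open Pool.Agent.H936.SL
open Pool.Agent.H936.G

variable {n N r₀ m : ℕ}

/-- the projections in the ultrapower -/
theorem gm_PjV {J : Matrix (Fin n) (Fin n) ℂ} {V : ℕ → Submodule ℂ (Matrix (Ix r₀ n N) (Ix r₀ n N) ℂ)} {j : Fin N}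
    {X : ℕ → Matrix (Fin n) (Fin n) ℂ} : gm X ∈ Pj (cu J) (Lw V) j ↔
      ∀ᶠ k in (hyperfilter ℕ : Filter ℕ), X k ∈ Pj J (V k) j := by
  classical
  constructor
  · rintro ⟨h0, e, y, c, h1, h2, h3⟩
    obtain ⟨e, rfl⟩ := gm_surj e
    obtain ⟨c, rfl⟩ := mk_surj c
    choose y' hy' using fun i => gm_surj (y i)
    have hy : y = fun i => gm fun k => y' i k := funext fun i => (hy' i).symm
    subst hy
    have e1 : gm (fun k => Tot (e k) fun i => y' i k) = Tot (gm e) fun i => gm fun k => y' i k :=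
      gm_Tot e fun k i => y' i k
    rw [← e1, mem_Lw] at h1
    have e2 : ∀ᶠ k in (hyperfilter ℕ : Filter ℕ), ∀ i, GS J (y' i k) := Filter.eventually_all.2 fun i => gm_GS.1 (h2 i)
    have e3 : gm (fun k => y' j k) = gm fun k => X k + c k • (1 : Mn n ℂ) := by
      rw [gm_add, gm_smul, gm_one]
      exact h3
    filter_upwards [gm_spS.1 h0, h1, e2, gm_eq e3] with k k0 k1 k2 k3
    exact ⟨k0, e k, fun i => y' i k, c k, k1, k2, k3⟩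
  · intro h
    have h1 : ∀ k, ∃ (e : Matrix (Fin r₀) (Fin r₀) ℂ) (y : Fin N → Mn n ℂ) (c : ℂ), X k ∈ Pj J (V k) j →
        (Tot e y ∈ V k ∧ (∀ i, GS J (y i)) ∧ y j = X k + c • (1 : Mn n ℂ)) := by
      intro k
      by_cases hk : X k ∈ Pj J (V k) j
      · obtain ⟨-, e, y, c, k1, k2, k3⟩ := hk
        exact ⟨e, y, c, fun _ => ⟨k1, k2, k3⟩⟩
      · exact ⟨0, fun _ => 0, 0, fun h => absurd h hk⟩
    choose e y c hh using h1
    refine ⟨gm_spS.2 (h.mono fun k hk => hk.1), gm e, fun i => gm fun k => y k i, mk ℂ c, ?_, fun i => ?_, ?_⟩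
    · rw [← gm_Tot, mem_Lw]
      exact h.mono fun k hk => (hh k hk).1
    · exact gm_GS.2 (h.mono fun k hk => (hh k hk).2.1 i)
    · rw [← gm_one, ← gm_smul, ← gm_add, gm_ev]
      exact h.mono fun k hk => (hh k hk).2.2

/-- nondegenerate trace forms -/
theorem TN_gmV {J : Matrix (Fin n) (Fin n) ℂ} {V : ℕ → Submodule ℂ (Matrix (Ix r₀ n N) (Ix r₀ n N) ℂ)} {j : Fin N}
    (h : ∀ k, TN (Pj J (V k) j)) : TN (Pj (cu J) (Lw V) j) := by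
  classical
  intro X hX htr
  obtain ⟨X, rfl⟩ := gm_surj X
  by_contra hne
  have h0 : ∀ᶠ k in (hyperfilter ℕ : Filter ℕ), X k ≠ 0 := by
    by_contra hcon
    rw [← Ultrafilter.eventually_not] at hcon
    apply hne
    rw [← gm_zero, gm_ev]
    exact hcon.mono fun k hk => not_not.1 hk
  have h1 := gm_PjV.1 hX
  have h2 : ∀ k, ∃ Y, (X k ≠ 0 ∧ X k ∈ Pj J (V k) j) → (Y ∈ Pj J (V k) j ∧ Matrix.trace (X k * Y) ≠ 0) := by
    intro k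
    by_cases hk : X k ≠ 0 ∧ X k ∈ Pj J (V k) j
    · have h3 := h k (X k) hk.2
      by_contra hcon
      push Not at hcon
      refine hk.1 (h3 fun Y hY => ?_)
      exact (hcon Y).2 hY
    · exact ⟨0, fun h => absurd h hk⟩
  choose Y hY using h2
  have h3 := htr (gm Y) (gm_PjV.2 ((h0.and h1).mono fun k hk => (hY k hk).1))
  rw [← gm_mul, tr_gm, mk_eq_zero] at h3
  obtain ⟨k, hk1, hk2⟩ := ((h0.and h1).and h3).exists
  exact (hY k hk1).2 hk2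

theorem ne_gmV {J : Matrix (Fin n) (Fin n) ℂ} {V : ℕ → Submodule ℂ (Matrix (Ix r₀ n N) (Ix r₀ n N) ℂ)} {j : Fin N}
    (h : ∀ k, Pj J (V k) j ≠ ⊥) : Pj (cu J) (Lw V) j ≠ ⊥ := by
  choose X hX hX0 using fun k => Submodule.exists_mem_ne_zero_of_ne_bot (h k)
  intro hcon
  have h1 : gm X ∈ Pj (cu J) (Lw V) j := gm_PjV.2 (Filter.Eventually.of_forall hX)
  rw [hcon, Submodule.mem_bot, ← gm_zero] at h1
  obtain ⟨k, hk⟩ := (gm_eq h1).exists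
  exact hX0 k hk

/-- the properties of a space of matrices through a point -/
structure Sp (K : Subfield ℂ) (J : Mn n ℂ) (c : Matrix (Ix r₀ n N) (Ix r₀ n N) ℂ)
    (V : Submodule ℂ (Matrix (Ix r₀ n N) (Ix r₀ n N) ℂ)) : Prop where
  br : ∀ x ∈ V, ∀ y ∈ V, x * y - y * x ∈ V
  rat : ∀ f : ℂ →ₗ[QQ] ℂ, ∀ w ∈ V, w.map f ∈ V
  kdf : ∀ f : ℂ →ₗ[K] ℂ, ∀ w ∈ V, c * (c⁻¹ * w * c).map f * c⁻¹ ∈ V
  unit : c.det ≠ 0
  tn : ∀ j, TN (Pj J V j)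
  ne : ∀ j, Pj J V j ≠ ⊥

theorem LvS.sp {g : ℕ} {K : Subfield ℂ} {A : Fin N → Pool.Agent.Y102.AbVar g} {H : Matrix (Fin (2 * g)) (Fin (2 * g)) ℚ}
    {C₀ : Matrix (Fin r₀) (Fin r₀) ℂ} {P : Fin N → Matrix (Fin (2 * g)) (Fin (2 * g)) ℂ}
    {R : Fin N → Matrix (Fin (2 * g)) (Fin (2 * g)) ℚ}
    {V : Submodule ℂ (Matrix (Ix r₀ (2 * g) N) (Ix r₀ (2 * g) N) ℂ)} (h : LvS K A H C₀ P R V) (hH : Hᵀ = -H)
    (hg : 0 < g) : Sp K (Pool.Agent.Y119.HY.cm H⁻¹) (Tot C₀ P) V where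
  br := h.br
  rat := h.rat
  kdf := h.kdf
  unit := ((Matrix.isUnit_iff_isUnit_det _).1 h.unit).ne_zero
  tn j := h.TN hH j
  ne j := h.ne hg j

/-- **the Lie algebra of a sequence of spaces** -/
theorem nmV {J : Mn n ℂ} {Cs : ℕ → Mn n ℂ} {z : ℕ → Fin N → Mn n ℂ} (h : Sq J Cs z)
    {C₀ : Matrix (Fin r₀) (Fin r₀) ℂ} (hC₀ : C₀.det ≠ 0) {e : Fin m → Fin N} (he : Function.Injective e)
    {K : ℕ → Subfield ℂ} {d : ℕ} (hK : ∀ k, FiniteDimensional ℚ (K k)) (hD : ∀ k, finrank ℚ (K k) ≤ d)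
    {V : ℕ → Submodule ℂ (Matrix (Ix r₀ n m) (Ix r₀ n m) ℂ)}
    (hV : ∀ k, Sp (K k) J (Tot C₀ fun j => Cs k * z k (e j)) (V k)) : Nm (h.D C₀) e (Lw V) where
  inj := he
  br := Lw_br fun k => (hV k).br
  nrm d w hw := by
    have h3 := normW hK hD (fun k => (hV k).unit) (fun k => (hV k).rat) (fun k => (hV k).kdf) (d : DD) hw
    have h4 : ld (fun k => Tot C₀ fun j => Cs k * z k (e j)) (d : DD) =
        Tot ((h.D C₀).F₀ d) (fun j => (h.D C₀).Fc d + (h.D C₀).X (e j) d) := by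
      have h5 := ld_Tot (C₀ := C₀) hC₀ (y := fun k j => Cs k * z k (e j)) (fun k j => by
        rw [Matrix.det_mul]
        exact mul_ne_zero (h.cu k) (h.zu k _)) (d : DD)
      refine h5.trans ?_
      congr 1
      funext j
      exact ld_mul h.cu (fun k => h.zu k (e j)) _
    rw [h4] at h3
    exact h3
  tn j := TN_gmV fun k => (hV k).tn j
  ne j := ne_gmV fun k => (hV k).ne j

/-- back to the components -/
theorem backV {J : Mn n ℂ} {V : ℕ → Submodule ℂ (Matrix (Ix r₀ n m) (Ix r₀ n m) ℂ)}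
    (h : ∀ i, ∀ Y ∈ spS (cu J), ib (r₀ := r₀) i Y ∈ Lw V) :
    ∀ᶠ k in (hyperfilter ℕ : Filter ℕ), ∀ i, ∀ X ∈ spS J, ib (r₀ := r₀) i X ∈ V k := by
  classical
  rw [Filter.eventually_all]
  intro i
  by_contra hcon
  rw [← Ultrafilter.eventually_not] at hcon
  have h1 : ∀ k, ∃ X ∈ spS J, (¬ ∀ X ∈ spS J, ib (r₀ := r₀) i X ∈ V k) → ib (r₀ := r₀) i X ∉ V k := by
    intro k
    by_cases hk : ∀ X ∈ spS J, ib (r₀ := r₀) i X ∈ V k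
    · exact ⟨0, (spS J).zero_mem, fun h => absurd hk h⟩
    · have hk' := hk
      push Not at hk'
      obtain ⟨Y, h1, h2⟩ := hk'
      exact ⟨Y, h1, fun _ => h2⟩
  choose X hX1 hX2 using h1
  have h3 : ib i (gm X) ∈ Lw V := h i _ (gm_spS.2 (Filter.Eventually.of_forall hX1))
  rw [← gm_ib] at h3
  have h5 := mem_Lw.1 h3
  obtain ⟨k, hk1, hk2⟩ := (h5.and hcon).exists
  exact hX2 k hk2 hk1

/-- **The first core theorem** -/
theorem coreV1 {J : Mn n ℂ} (hJ : Jᵀ = -J) (hdet : IsUnit J.det) {Cs : ℕ → Mn n ℂ} {z : ℕ → Fin N → Mn n ℂ} (h : Sq J Cs z)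
    {C₀ : Matrix (Fin r₀) (Fin r₀) ℂ} (hC₀ : C₀.det ≠ 0)
    {K : ℕ → Subfield ℂ} {d : ℕ} (hK : ∀ k, FiniteDimensional ℚ (K k)) (hD : ∀ k, finrank ℚ (K k) ≤ d)
    {V : ℕ → Submodule ℂ (Matrix (Ix r₀ n N) (Ix r₀ n N) ℂ)}
    (hV : ∀ k, Sp (K k) J (Tot C₀ fun j => Cs k * z k j) (V k))
    {𝔉 : Submodule (U ℂ) (Mn n (U ℂ))} (h𝔉 : 𝔉 ≤ spS (SL.cu J))
    (hF : ∀ δ : DD, ∃ c : U ℂ, ld Cs δ + c • (1 : Mn n (U ℂ)) ∈ 𝔉)
    (good : ∀ 𝔩 : Submodule (U ℂ) (Mn n (U ℂ)), 𝔩 ≤ spS (SL.cu J) → TN 𝔩 → (∀ X ∈ spS (SL.cu J), ∃ Z B, X = Z + B ∧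
      Z ∈ spS (SL.cu J) ∧ B ∈ 𝔉 ∧ ∀ Y ∈ 𝔩, Z * Y - Y * Z ∈ 𝔩) → 𝔩 = ⊥ ∨ 𝔩 = spS (SL.cu J))
    (hfew : FewG (finrank (U ℂ) (spS (SL.cu J))) Cs C₀) :
    ∀ᶠ k in (hyperfilter ℕ : Filter ℕ), ∀ i, ∀ X ∈ spS J, ib (r₀ := r₀) i X ∈ V k := by
  have hn := nmV h hC₀ (e := fun i => i) (fun _ _ h => h) hK hD hV
  obtain ⟨V', _, _, _, Φ, hV', hΦ⟩ := hfew
  exact backV fun i => hn.core1 (cu_skew hJ) (cu_unit hdet) h𝔉 (fun d => hF d) good (Φ ∘ₗ (Ds J Cs z).subtype) hV'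
    (fun d hd => hΦ d hd) i

/-- **The second core theorem** -/
theorem coreV2 {J : Mn n ℂ} (hJ : Jᵀ = -J) (hdet : IsUnit J.det) (hn : 3 ≤ n) {Cs : ℕ → Mn n ℂ}
    {z : ℕ → Fin N → Mn n ℂ} (h : Sq J Cs z) {C₀ : Matrix (Fin r₀) (Fin r₀) ℂ} (hC₀ : C₀.det ≠ 0) {ι : Type} (x₀ : ι)
    {e : ι → Fin m → Fin N} (he : ∀ x, Function.Injective (e x))
    {K : ι → ℕ → Subfield ℂ} {d : ℕ} (hK : ∀ x k, FiniteDimensional ℚ (K x k)) (hD : ∀ x k, finrank ℚ (K x k) ≤ d)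
    {V : ι → ℕ → Submodule ℂ (Matrix (Ix r₀ n m) (Ix r₀ n m) ℂ)}
    (hV : ∀ x k, Sp (K x k) J (Tot C₀ fun i => Cs k * z k (e x i)) (V x k))
    (hfew : FewG (finrank (U ℂ) (spS (SL.cu J)) + (n - 1)) Cs C₀)
    (hbad : ∀ x, ¬ ∀ᶠ k in (hyperfilter ℕ : Filter ℕ), ∀ i, ∀ X ∈ spS J, ib (r₀ := r₀) i X ∈ V x k) :
    ∃ p, ∀ x, ∃ j, e x j = p := by
  obtain ⟨V', _, _, _, Φ, hV', hΦ⟩ := hfew
  exact G.core2 (cu_skew hJ) (cu_unit hdet) hn (h.D C₀) (Φ ∘ₗ (Ds J Cs z).subtype) hV' (fun d hd => hΦ d hd) x₀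
    (L := fun x => Lw (V x))
    (fun x => nmV h hC₀ (he x) (hK x) (hD x) (hV x)) fun x hx => hbad x (backV hx)

end Pool.Agent.H936.W
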